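import Pool.Agent.U907.MR.Quad

/-!
# The base case: the `4`-rank of imaginary quadratic fields is unbounded
-/

set_option autoImplicit false

namespace Pool.Agent.U907.MR

open NumberField IsDedekindDomain nonZeroDivisors WithZero

theorem pv_prod {ι : Type} [DecidableEq ι] (p : ℕ) [Fact p.Prime] (f : ι → ℚ) (S : Finset ι)
    (hf : ∀ i ∈ S, f i ≠ 0) : padicValRat p (∏ i ∈ S, f i) = ∑ i ∈ S, padicValRat p (f i) := by
  induction S using Finset.induction_on with
  | empty => simp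
  | insert i S hi ih =>
    rw [Finset.prod_insert hi, Finset.sum_insert hi, padicValRat.mul (hf i (Finset.mem_insert_self _ _))
      (Finset.prod_ne_zero_iff.2 fun j hj => hf j (Finset.mem_insert_of_mem hj)),
      ih fun j hj => hf j (Finset.mem_insert_of_mem hj)]

theorem prod_mod {ι : Type} [DecidableEq ι] (f : ι → ℕ) (S : Finset ι) (hf : ∀ i ∈ S, f i % 4 = 1) :
    (∏ i ∈ S, f i) % 4 = 1 := by
  induction S using Finset.induction_on with
  | empty => simp
  | insert i S hi ih =>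
    rw [Finset.prod_insert hi, Nat.mul_mod, hf i (Finset.mem_insert_self _ _),
      ih fun j hj => hf j (Finset.mem_insert_of_mem hj)]

/-- a product of powers of the primes which is a square in `ℚ(√(-D))` -/
theorem even_exp {K : Type} [Field K] [NumberField K] {D : ℕ} (hD : 0 < D) {θ : K}
    (hθ : θ ^ 2 = -(D : K)) (hrep : ∀ y : K, ∃ a b : ℚ, y = a + b * θ) {N : ℕ} {p : Fin N → ℕ}
    (hp : ∀ i, (p i).Prime) (hinj : Function.Injective p) (e : Fin N → ℤ) (y : K)
    (h : ∏ i, (p i : K) ^ e i = y ^ 2) (i : Fin N) : (2 : ℤ) ∣ e i := by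
  have hDq : (0 : ℚ) < D := by exact_mod_cast hD
  obtain ⟨a, b, rfl⟩ := hrep y
  set r : ℚ := ∏ i, (p i : ℚ) ^ e i with hr
  have hr0 : 0 < r := Finset.prod_pos fun i _ => zpow_pos (by exact_mod_cast (hp i).pos) _
  have hrK : (r : K) = (a + b * θ) ^ 2 := by
    rw [← h, hr]
    push_cast
    rfl
  have h1 : ((r - a ^ 2 + b ^ 2 * D : ℚ) : K) = ((2 * a * b : ℚ) : K) * θ := by
    push_cast
    linear_combination hrK + (b : K) ^ 2 * hθ
  have h2 : 2 * a * b = 0 := by
    by_contra hne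
    have hneK : ((2 * a * b : ℚ) : K) ≠ 0 := by exact_mod_cast hne
    have h3 : θ = (((r - a ^ 2 + b ^ 2 * D) / (2 * a * b) : ℚ) : K) := by
      rw [Rat.cast_div, h1]
      field_simp
    have h4 : (((r - a ^ 2 + b ^ 2 * D) / (2 * a * b)) ^ 2 : ℚ) = -(D : ℚ) := by
      have h5 : (((((r - a ^ 2 + b ^ 2 * D) / (2 * a * b)) ^ 2 : ℚ)) : K) = ((-(D : ℚ) : ℚ) : K) := by
        rw [Rat.cast_pow, ← h3, hθ]
        push_cast
        rfl
      exact_mod_cast h5
    nlinarith [sq_nonneg ((r - a ^ 2 + b ^ 2 * D) / (2 * a * b))]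
  have h3 : r = a ^ 2 - b ^ 2 * D := by
    rw [h2, Rat.cast_zero, zero_mul] at h1
    have h4 : r - a ^ 2 + b ^ 2 * D = 0 := by exact_mod_cast h1
    linarith
  have hb : b = 0 := by
    rcases mul_eq_zero.1 h2 with h4 | h4
    · have ha : a = 0 := by linarith
      rw [ha] at h3
      nlinarith [mul_nonneg (sq_nonneg b) hDq.le]
    · exact h4
  rw [hb] at h3
  have ha0 : a ≠ 0 := by
    rintro rfl
    simp at h3
    linarith
  have : Fact (p i).Prime := ⟨hp i⟩
  have h4 : padicValRat (p i) r = e i := by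
    rw [hr, pv_prod _ _ _ (fun j _ => zpow_ne_zero _ (by exact_mod_cast (hp j).ne_zero)),
      Finset.sum_eq_single i]
    · rw [padicValRat.zpow, padicValRat.self (hp i).one_lt, mul_one]
    · intro j _ hj
      have : Fact (p j).Prime := ⟨hp j⟩
      rw [padicValRat.zpow, padicValRat.of_nat, padicValNat_primes (fun h => hj (hinj h).symm)]
      simp
    · intro hi
      exact absurd (Finset.mem_univ i) hi
  have h5 : padicValRat (p i) r = 2 * padicValRat (p i) a := by
    rw [h3]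
    have : a ^ 2 - 0 ^ 2 * (D : ℚ) = a * a := by ring
    rw [this, padicValRat.mul ha0 ha0]
    ring
  rw [← h4, h5]
  exact Dvd.intro _ rfl

/-- the `4`-rank of imaginary quadratic fields is unbounded -/
theorem base4 (R : ℕ) : ∃ (K : Type) (_ : Field K) (_ : NumberField K), Module.finrank ℚ K = 2 ∧
    ∃ f : Multiplicative (Fin R → ZMod 4) →* ClassGroup (𝓞 K), Function.Injective f := by
  classical
  obtain ⟨p, hp, hinj, hsq⟩ := exists_primes (R + 2)
  set D : ℕ := ∏ i, p i with hD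
  have hD0 : 0 < D := Finset.prod_pos fun i _ => (hp i).1.pos
  set E : Fin (R + 2) → ℕ := fun i => ∏ j ∈ Finset.univ.erase i, p j with hE
  have hDE : ∀ i, D = p i * E i := fun i => (Finset.mul_prod_erase _ _ (Finset.mem_univ i)).symm
  have hpE : ∀ i, Nat.Coprime (p i) (E i) := fun i => Nat.Coprime.prod_right fun j hj =>
    (Nat.coprime_primes (hp i).1 (hp j).1).2 fun h => (Finset.ne_of_mem_erase hj) (hinj h).symm
  have hE4 : ∀ i, E i % 4 = 1 := fun i => prod_mod p _ fun j _ => (hp j).2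
  have hEsf : ∀ i, Squarefree (E i) := by
    intro i
    refine Finset.squarefree_prod_of_pairwise_isCoprime ?_ fun j _ => (hp j).1.prime.squarefree
    intro a _ b _ hab
    show IsRelPrime (p a) (p b)
    rw [← Nat.coprime_iff_isRelPrime]
    exact (Nat.coprime_primes (hp a).1 (hp b).1).2 fun h => hab (hinj h)
  have hsol : ∀ i, ∃ X Y Z : ℤ, Y ≠ 0 ∧ Z ^ 2 - (p i : ℤ) * X ^ 2 = (E i : ℤ) * Y ^ 2 ∧
      ∃ u v w : ℤ, u * X + v * Y + w * Z = 1 := by
    intro i
    refine primitive ?_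
    have h1 := leg_prod (p i : ℤ) (fun j => (p j : ℤ)) (Finset.univ.erase i) fun j hj =>
      leg2 (hp i).1 (hp j).1 (fun h => (Finset.ne_of_mem_erase hj) (hinj h).symm)
        (hsq i j (Finset.ne_of_mem_erase hj).symm) (hsq j i (Finset.ne_of_mem_erase hj))
    rw [← Nat.cast_prod] at h1
    exact h1
  choose X Y Z hY hXYZ u v w huvw using hsol
  obtain ⟨K, _, _, θ, hfr, hθ, hrep⟩ := exists_quad D hD0
  refine ⟨K, inferInstance, inferInstance, hfr, ?_⟩
  have hZ0 : ∀ i, Z i ≠ 0 := by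
    intro i h0
    have h1 := hXYZ i
    rw [h0] at h1
    have hE0 : (0 : ℤ) < E i := by
      have := hE4 i
      exact_mod_cast (show 0 < E i by omega)
    have h2 : 0 < (E i : ℤ) * Y i ^ 2 := mul_pos hE0 (by have := hY i; positivity)
    have h3 : 0 ≤ (p i : ℤ) * X i ^ 2 := by positivity
    linarith
  have hp0 : ∀ i, (p i : K) ≠ 0 := fun i => by exact_mod_cast (hp i).1.ne_zero
  have hα0 : ∀ i, ((p i : K) * X i + Y i * θ) ≠ 0 := by
    intro i h0
    have hαα : ((p i : K) * X i + Y i * θ) * (p i * X i - Y i * θ) = p i * Z i ^ 2 := by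
      have h1 : (Z i : K) ^ 2 - p i * X i ^ 2 = E i * Y i ^ 2 := by exact_mod_cast hXYZ i
      have h2 : (D : K) = p i * E i := by rw [hDE i]; push_cast; ring
      linear_combination -(Y i : K) ^ 2 * hθ + (Y i : K) ^ 2 * h2 - p i * h1
    rw [h0, zero_mul, eq_comm, mul_eq_zero] at hαα
    rcases hαα with h | h
    · exact hp0 i h
    · exact hZ0 i (by exact_mod_cast (pow_eq_zero_iff two_ne_zero).1 h)
  have hg0 : ∀ i, ((p i : K) * X i + Y i * θ) ^ 2 / p i ≠ 0 := fun i =>
    div_ne_zero (pow_ne_zero 2 (hα0 i)) (hp0 i)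
  refine clsg K (R + 2) 4 R (by norm_num) (by have := rank_le K; omega)
    (fun i => Units.mk0 _ (hg0 i)) ?_ ?_
  · intro i
    refine Pool.Agent.W64.CG.val K 4 _ (by norm_num) fun v => ?_
    exact val4 v hθ (hDE i) (hp i).1 (hpE i) (hEsf i) (hp i).2 (hE4 i) (hY i) (hXYZ i) (huvw i)
  · intro ℓ hℓ hℓ4 e y hy i
    have hℓ2 : ℓ = 2 := by
      have h1 : ℓ ∣ 2 ^ 2 := by simpa using hℓ4
      exact (Nat.prime_dvd_prime_iff_eq hℓ Nat.prime_two).1 (hℓ.dvd_of_dvd_pow h1)
    subst hℓ2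
    have h1 : ∏ i, (((p i : K) * X i + Y i * θ) ^ 2 / p i) ^ e i = (y : K) ^ 2 := by
      have h2 := congrArg (Units.val) hy
      rw [Units.val_pow_eq_pow_val, Units.coe_prod] at h2
      rw [← h2]
      refine Finset.prod_congr rfl fun i _ => ?_
      rw [Units.val_zpow_eq_zpow_val, Units.val_mk0]
    have h3 : ∏ i, (p i : K) ^ e i = ((∏ i, ((p i : K) * X i + Y i * θ) ^ e i) / y) ^ 2 := by
      rw [div_pow, ← h1, ← Finset.prod_pow, ← Finset.prod_div_distrib]
      refine Finset.prod_congr rfl fun i _ => ?_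
      have h4 : (((p i : K) * X i + Y i * θ)) ^ e i ≠ 0 := zpow_ne_zero _ (hα0 i)
      have h5 : (p i : K) ^ e i ≠ 0 := zpow_ne_zero _ (hp0 i)
      rw [div_zpow, ← zpow_natCast, ← zpow_natCast, ← zpow_mul, ← zpow_mul, mul_comm (e i)]
      field_simp
      rw [div_self (zpow_ne_zero _ (hα0 i))]
    exact even_exp hD0 hθ hrep (fun i => (hp i).1) hinj e _ h3 i

end Pool.Agent.U907.MR
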