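import Pool.Agent.W930.CG.Cls
import Pool.Agent.W240.CG.Grp

/-!
# Class groups from elements which are `m`-th powers of ideals; any roots of unity in the field
-/

set_option autoImplicit false

namespace Pool.Agent.U907.MR

open NumberField nonZeroDivisors Pool.Agent.W289.CG Pool.Agent.W930.CG

/-- a unit is, up to an `ℓ`-th power, one of `ℓ ^ (rank + 1)` units -/
theorem unit_rep (K : Type) [Field K] [NumberField K] :
    ∃ b : Fin (Units.rank K + 1) → (𝓞 K)ˣ, ∀ (ℓ : ℕ), 0 < ℓ → ∀ u : (𝓞 K)ˣ,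
      ∃ (r : Fin (Units.rank K + 1) → Fin ℓ) (v : (𝓞 K)ˣ), u = (∏ i, b i ^ (r i : ℕ)) * v ^ ℓ := by
  obtain ⟨ζ, hζ⟩ := IsCyclic.exists_generator (α := Units.torsion K)
  refine ⟨Fin.cons (ζ : (𝓞 K)ˣ) (Units.fundSystem K), fun ℓ hℓ u => ?_⟩
  set b : Fin (Units.rank K + 1) → (𝓞 K)ˣ := Fin.cons (ζ : (𝓞 K)ˣ) (Units.fundSystem K) with hb
  obtain ⟨⟨z, n⟩, hu, _⟩ := Units.exist_unique_eq_mul_prod K u
  obtain ⟨a, ha⟩ := hζ z
  set n' : Fin (Units.rank K + 1) → ℤ := Fin.cons a n with hn'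
  have hu' : u = ∏ i, b i ^ n' i := by
    rw [Fin.prod_univ_succ]
    simp only [hb, hn', Fin.cons_zero, Fin.cons_succ]
    rw [hu]
    congr 1
    have : z = ζ ^ a := ha.symm
    rw [this]
    simp
  have hl0 : (0 : ℤ) < ℓ := by exact_mod_cast hℓ
  have hr : ∀ i, (n' i % (ℓ : ℤ)).toNat < ℓ := by
    intro i
    have h5 := Int.emod_lt_of_pos (n' i) hl0
    have h6 := Int.emod_nonneg (n' i) hl0.ne'
    omega
  refine ⟨fun i => ⟨(n' i % (ℓ : ℤ)).toNat, hr i⟩, ∏ i, b i ^ (n' i / (ℓ : ℤ)), ?_⟩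
  rw [hu', ← Finset.prod_pow, ← Finset.prod_mul_distrib]
  refine Finset.prod_congr rfl fun i _ => ?_
  rw [← zpow_natCast, ← zpow_natCast, ← zpow_mul, ← zpow_add]
  congr 1
  have h6 := Int.emod_nonneg (n' i) hl0.ne'
  have h7 := Int.emod_add_mul_ediv (n' i) ℓ
  simp only
  rw [Int.toNat_of_nonneg h6]
  linarith

/-- class groups from independent elements which are `m`-th powers of ideals -/
theorem clsg (K : Type) [Field K] [NumberField K] (N m R : ℕ) (hm : 2 ≤ m)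
    (hR : R + (Units.rank K + 1) ≤ N) (g : Fin N → Kˣ)
    (hI : ∀ i, ∃ I : (FractionalIdeal (𝓞 K)⁰ K)ˣ, I ^ m = toPrincipalIdeal (𝓞 K) K (g i))
    (hind : ∀ ℓ : ℕ, ℓ.Prime → ℓ ∣ m → ∀ (e : Fin N → ℤ) (y : Kˣ), ∏ i, g i ^ e i = y ^ ℓ →
      ∀ i, (ℓ : ℤ) ∣ e i) :
    ∃ f : Multiplicative (Fin R → ZMod m) →* ClassGroup (𝓞 K), Function.Injective f := by
  choose I hI using hI
  obtain ⟨b, hU⟩ := unit_rep K
  refine Pool.Agent.W240.CG.grp (ClassGroup (𝓞 K)) N m (Units.rank K + 1) R hm hR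
    (fun i => pi K (I i)) ?_ ?_
  · intro i
    rw [← map_pow, hI, pi_eq_one]
    exact ⟨_, rfl⟩
  · intro ℓ hℓ hℓm
    have : Fact ℓ.Prime := ⟨hℓ⟩
    set ι : (𝓞 K)ˣ →* Kˣ := Units.map (algebraMap (𝓞 K) K).toMonoidHom with hι
    have hmul : m / ℓ * ℓ = m := Nat.div_mul_cancel hℓm
    have key : ∀ e : Fin N → ZMod ℓ, ∏ i, pi K (I i) ^ ((m / ℓ) * (e i).val) = 1 →
        ∃ (r : Fin (Units.rank K + 1) → Fin ℓ) (w : Kˣ),
          ∏ i, g i ^ (e i).val = ι (∏ i, b i ^ (r i : ℕ)) * w ^ ℓ := by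
      intro e he
      have h1 : pi K (∏ i, I i ^ ((m / ℓ) * (e i).val)) = 1 := by
        rw [map_prod, ← he]
        exact Finset.prod_congr rfl fun i _ => map_pow _ _ _
      obtain ⟨α, hα⟩ := pi_eq_one.1 h1
      have h2 : toPrincipalIdeal (𝓞 K) K (∏ i, g i ^ (e i).val) =
          toPrincipalIdeal (𝓞 K) K (α ^ ℓ) := by
        rw [map_pow, hα, map_prod, ← Finset.prod_pow]
        refine Finset.prod_congr rfl fun i _ => ?_
        rw [map_pow, ← hI, ← pow_mul, ← pow_mul]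
        congr 1
        calc m * (e i).val = (m / ℓ * ℓ) * (e i).val := by rw [hmul]
          _ = _ := by ring
      have h3 : toPrincipalIdeal (𝓞 K) K ((∏ i, g i ^ (e i).val) * (α ^ ℓ)⁻¹) = 1 := by
        rw [map_mul, map_inv, h2, mul_inv_cancel]
      obtain ⟨u, hu⟩ := unit_of_toPrincipal h3
      have h4 : ∏ i, g i ^ (e i).val = ι u * α ^ ℓ := by
        rw [hι, hu, inv_mul_cancel_right]
      obtain ⟨r, v, h5⟩ := hU ℓ hℓ.pos u
      refine ⟨r, ι v * α, ?_⟩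
      rw [h4, h5, map_mul, map_pow, mul_pow, mul_assoc]
    classical
    choose! r w hrw using key
    have hinj : Set.InjOn r {e : Fin N → ZMod ℓ | ∏ i, pi K (I i) ^ ((m / ℓ) * (e i).val) = 1} := by
      intro e he e' he' hr
      have h1 := hrw e he
      have h2 := hrw e' he'
      rw [hr] at h1
      set F := ι (∏ i, b i ^ (r e' i : ℕ)) with hF
      have h3 : ∏ i, g i ^ (((e i).val : ℤ) - ((e' i).val : ℤ)) =
          (∏ i, g i ^ (e i).val) * (∏ i, g i ^ (e' i).val)⁻¹ := by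
        rw [← Finset.prod_inv_distrib, ← Finset.prod_mul_distrib]
        refine Finset.prod_congr rfl fun i _ => ?_
        rw [zpow_sub, zpow_natCast, zpow_natCast]
      have h4 := hind ℓ hℓ hℓm (fun i => ((e i).val : ℤ) - ((e' i).val : ℤ)) (w e * (w e')⁻¹) (by
        rw [h3, mul_pow, inv_pow, h1, h2, mul_inv]
        rw [show F * w e ^ ℓ * (F⁻¹ * (w e' ^ ℓ)⁻¹) = (F * F⁻¹) * (w e ^ ℓ * (w e' ^ ℓ)⁻¹) by
          rw [mul_mul_mul_comm], mul_inv_cancel, one_mul])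
      funext i
      have h5 := h4 i
      have h6 : (((e i).val : ℤ) : ZMod ℓ) = (((e' i).val : ℤ) : ZMod ℓ) := by
        rw [← sub_eq_zero, ← Int.cast_sub]
        exact (ZMod.intCast_zmod_eq_zero_iff_dvd _ _).2 h5
      simpa using h6
    have h7 := Set.ncard_le_ncard_of_injOn (s := {e : Fin N → ZMod ℓ |
      ∏ i, pi K (I i) ^ ((m / ℓ) * (e i).val) = 1}) (t := Set.univ) r (fun _ _ => Set.mem_univ _)
      hinj Set.finite_univ
    rw [Set.ncard_univ, Nat.card_eq_fintype_card, Fintype.card_fun, Fintype.card_fin,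
      Fintype.card_fin] at h7
    exact h7

end Pool.Agent.U907.MR
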