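import Mathlib

/-!
# Coprime ideals in given ideal classes
-/

set_option autoImplicit false

namespace Pool.Agent.U907.MR

open nonZeroDivisors

variable {R : Type} [CommRing R] [IsDedekindDomain R]

theorem class_coprime (c : ClassGroup R) (N : Ideal R) (hN : N ≠ ⊥) :
    ∃ I : (Ideal R)⁰, ClassGroup.mk0 I = c ∧ IsCoprime (I : Ideal R) N := by
  obtain ⟨J, hJ⟩ := ClassGroup.mk0_surjective c⁻¹
  have hJ0 : (J : Ideal R) ≠ 0 := mem_nonZeroDivisors_iff_ne_zero.1 J.2
  obtain ⟨a, ha⟩ := IsDedekindDomain.exists_sup_span_eq (I := (J : Ideal R) * N) (J := (J : Ideal R))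
    Ideal.mul_le_left (mul_ne_zero hJ0 hN)
  have haJ : (J : Ideal R) ∣ Ideal.span {a} := by
    rw [Ideal.dvd_iff_le]
    exact le_sup_right.trans ha.le
  obtain ⟨I, hI⟩ := haJ
  have h1 : N ⊔ I = ⊤ := by
    have h2 : (J : Ideal R) * (N ⊔ I) = (J : Ideal R) * ⊤ := by
      rw [Ideal.mul_sup, ← hI, ha, Ideal.mul_top]
    exact mul_left_cancel₀ hJ0 h2
  by_cases hI0 : I = ⊥
  · have hN1 : N = ⊤ := by rw [← h1, hI0, sup_bot_eq]
    obtain ⟨I', hI'⟩ := ClassGroup.mk0_surjective c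
    refine ⟨I', hI', ?_⟩
    rw [hN1, Ideal.isCoprime_iff_sup_eq]
    simp
  · have hI1 : I ∈ (Ideal R)⁰ := mem_nonZeroDivisors_iff_ne_zero.2 hI0
    refine ⟨⟨I, hI1⟩, ?_, ?_⟩
    · have h4 : (J : Ideal R) * I ∈ (Ideal R)⁰ := mul_mem J.2 hI1
      have h5 : ClassGroup.mk0 ⟨(J : Ideal R) * I, h4⟩ = 1 := by
        rw [ClassGroup.mk0_eq_one_iff h4, ← hI]
        exact ⟨a, rfl⟩
      have h6 : (⟨(J : Ideal R) * I, h4⟩ : (Ideal R)⁰) = J * ⟨I, hI1⟩ := Subtype.ext rfl
      rw [h6, map_mul, hJ] at h5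
      exact (inv_mul_eq_one.1 h5).symm
    · rw [Ideal.isCoprime_iff_sup_eq, sup_comm]
      exact h1

theorem class_fam (n : ℕ) : ∀ (c : Fin n → ClassGroup R) (N : Ideal R), N ≠ ⊥ →
    ∃ I : Fin n → (Ideal R)⁰, (∀ i, ClassGroup.mk0 (I i) = c i) ∧
      (∀ i, IsCoprime (I i : Ideal R) N) ∧ ∀ i j, i ≠ j → IsCoprime (I i : Ideal R) (I j : Ideal R) := by
  induction n with
  | zero => exact fun c N _ => ⟨fun i => i.elim0, fun i => i.elim0, fun i => i.elim0, fun i => i.elim0⟩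
  | succ n ih =>
    intro c N hN
    obtain ⟨I₀, h1, h2⟩ := class_coprime (c 0) N hN
    have hI0 : (I₀ : Ideal R) ≠ 0 := mem_nonZeroDivisors_iff_ne_zero.1 I₀.2
    obtain ⟨I, g1, g2, g3⟩ := ih (fun i => c i.succ) (N * (I₀ : Ideal R)) (mul_ne_zero hN hI0)
    refine ⟨Fin.cons I₀ I, ?_, ?_, ?_⟩
    · intro i
      refine Fin.cases ?_ (fun j => ?_) i
      · simpa using h1
      · simpa using g1 j
    · intro i
      refine Fin.cases ?_ (fun j => ?_) i
      · simpa using h2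
      · simpa using (g2 j).of_mul_right_left
    · intro i j hij
      revert hij
      refine Fin.cases ?_ (fun i' => ?_) i <;> refine Fin.cases ?_ (fun j' => ?_) j
      · intro h
        exact absurd rfl h
      · intro _
        simpa using (g2 j').of_mul_right_right.symm
      · intro _
        simpa using (g2 i').of_mul_right_right
      · intro h
        simpa using g3 i' j' (fun h' => h (by rw [h']))

end Pool.Agent.U907.MR
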