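import Pool.Agent.U907.MR.Cop

/-!
# The elements and ideals which define the extension
-/

set_option autoImplicit false

namespace Pool.Agent.U907.MR

open NumberField IsDedekindDomain nonZeroDivisors

/-- an element with the ideal `∏ A i ⋅ ...`, where `A i ^ m = (α i)` -/
structure RData (F : Type) [Field F] [NumberField F] (m k N : ℕ) where
  α : Fin N → 𝓞 F
  A : Fin N → Ideal (𝓞 F)
  C : Fin N → Ideal (𝓞 F)
  δ : 𝓞 F
  q : HeightOneSpectrum (𝓞 F)
  hα : ∀ i, Ideal.span {α i} = A i ^ m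
  hδ : ∀ i, Ideal.span {δ} = A i * C i
  hAC : ∀ i, IsCoprime (A i) (C i)
  hα0 : ∀ i, α i ≠ 0
  hδq : δ ∈ q.asIdeal
  hδq2 : δ ∉ q.asIdeal ^ 2
  hαq : ∀ i, α i ∉ q.asIdeal
  hq : ((m * k : ℕ) : 𝓞 F) ∉ q.asIdeal
  ind : ∀ ℓ : ℕ, ℓ.Prime → ℓ ∣ m * k → ∀ (e : Fin N → ℤ) (x : Fˣ),
    ∏ i, (algebraMap (𝓞 F) F (α i)) ^ e i = (x : F) ^ ℓ → ∀ i, (ℓ : ℤ) ∣ e i

variable {F : Type} [Field F] [NumberField F]

theorem reduce {N : ℕ} (α : Fin N → 𝓞 F) (hα0 : ∀ i, α i ≠ 0) (ℓ : ℕ) (hℓ : 0 < ℓ) (e : Fin N → ℤ)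
    (x : Fˣ) (h : ∏ i, (algebraMap (𝓞 F) F (α i)) ^ e i = (x : F) ^ ℓ) :
    ∃ b : 𝓞 F, ∏ i, α i ^ (e i % ℓ).toNat = b ^ ℓ := by
  have hl0 : (0 : ℤ) < ℓ := by exact_mod_cast hℓ
  have hα : ∀ i, algebraMap (𝓞 F) F (α i) ≠ 0 := fun i h => hα0 i
    ((map_eq_zero_iff _ RingOfIntegers.coe_injective).1 h)
  set P : F := ∏ i, (algebraMap (𝓞 F) F (α i)) ^ (e i / (ℓ : ℤ)) with hP
  have hP0 : P ≠ 0 := Finset.prod_ne_zero_iff.2 fun i _ => zpow_ne_zero _ (hα i)
  have h1 : algebraMap (𝓞 F) F (∏ i, α i ^ (e i % ℓ).toNat) = ((x : F) / P) ^ ℓ := by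
    have h2 : algebraMap (𝓞 F) F (∏ i, α i ^ (e i % ℓ).toNat) * P ^ ℓ =
        ∏ i, (algebraMap (𝓞 F) F (α i)) ^ e i := by
      rw [hP, ← Finset.prod_pow, map_prod, ← Finset.prod_mul_distrib]
      refine Finset.prod_congr rfl fun i _ => ?_
      rw [map_pow, ← zpow_natCast, ← zpow_natCast, ← zpow_mul, ← zpow_add₀ (hα i)]
      congr 1
      have h6 := Int.emod_nonneg (e i) hl0.ne'
      have h7 := Int.emod_add_mul_ediv (e i) ℓ
      rw [Int.toNat_of_nonneg h6]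
      linarith
    rw [div_pow, ← h, ← h2, mul_div_cancel_right₀ _ (pow_ne_zero _ hP0)]
  have hint : IsIntegral ℤ ((x : F) / P) := by
    refine IsIntegral.of_pow hℓ ?_
    rw [← h1]
    exact RingOfIntegers.isIntegral_coe _
  obtain ⟨b, hb⟩ : ∃ b : 𝓞 F, algebraMap (𝓞 F) F b = (x : F) / P := ⟨⟨(x : F) / P, hint⟩, rfl⟩
  refine ⟨b, ?_⟩
  apply RingOfIntegers.coe_injective
  rw [map_pow, hb]
  exact h1

theorem exists_over (p : ℕ) (hp : p.Prime) : ∃ v : HeightOneSpectrum (𝓞 F), (p : 𝓞 F) ∈ v.asIdeal := by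
  have hpi : Prime (p : ℤ) := Nat.prime_iff_prime_int.1 hp
  have : (Ideal.span {(p : ℤ)}).IsMaximal :=
    PrincipalIdealRing.isMaximal_of_irreducible hpi.irreducible
  obtain ⟨Q, hQ, hQ'⟩ := Ideal.exists_maximal_ideal_liesOver_of_isIntegral (S := 𝓞 F)
    (Ideal.span {(p : ℤ)})
  have hmem : (p : 𝓞 F) ∈ Q := by
    have h1 : (p : ℤ) ∈ Q.under ℤ := by
      rw [← hQ'.over]
      exact Ideal.mem_span_singleton_self _
    have h2 := Ideal.mem_comap.1 h1
    simpa using h2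
  refine ⟨⟨Q, hQ.isPrime, ?_⟩, hmem⟩
  rintro rfl
  rw [Ideal.mem_bot] at hmem
  exact hp.ne_zero (by exact_mod_cast hmem)

theorem cop_of {p q : ℕ} (h : Nat.Coprime p q) {P Q : Ideal (𝓞 F)} (hp : (p : 𝓞 F) ∈ P)
    (hq : (q : 𝓞 F) ∈ Q) : IsCoprime P Q := by
  obtain ⟨a, b, hab⟩ := Nat.isCoprime_iff_coprime.2 h
  rw [Ideal.isCoprime_iff_exists]
  refine ⟨(a : 𝓞 F) * p, Ideal.mul_mem_left _ _ hp, (b : 𝓞 F) * q, Ideal.mul_mem_left _ _ hq, ?_⟩
  have := congrArg (fun z : ℤ => (z : 𝓞 F)) hab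
  push_cast at this
  exact this

theorem prime_not {P B : Ideal (𝓞 F)} (hP : P.IsPrime) (h : IsCoprime B P) : ¬ B ≤ P := by
  intro h1
  rw [Ideal.isCoprime_iff_sup_eq] at h
  rw [sup_eq_right.2 h1] at h
  exact hP.ne_top h

theorem principal_of (T : (Ideal (𝓞 F))⁰) (h : ClassGroup.mk0 T = 1) :
    ∃ a : 𝓞 F, Ideal.span {a} = (T : Ideal (𝓞 F)) := by
  obtain ⟨T, hT⟩ := T
  obtain ⟨a, ha⟩ := ((ClassGroup.mk0_eq_one_iff hT).1 h).principal
  exact ⟨a, ha.symm⟩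

theorem mk0_of_principal (T : (Ideal (𝓞 F))⁰) (a : 𝓞 F) (h : Ideal.span {a} = (T : Ideal (𝓞 F))) :
    ClassGroup.mk0 T = 1 := by
  obtain ⟨T, hT⟩ := T
  exact (ClassGroup.mk0_eq_one_iff hT).2 ⟨a, h.symm⟩

theorem prime_pow_eq {P D W B : Ideal (𝓞 F)} {n ℓ : ℕ} (hP : P.IsPrime) (hP0 : P ≠ ⊥) (hℓ : ℓ ≠ 0)
    (hW : IsCoprime (P ^ n) W) (h : P ^ n * W = B ^ ℓ) : ℓ ∣ n := by
  classical
  have hPp : Prime P := (Ideal.prime_iff_isPrime hP0).2 hP
  have hu : IsUnit (gcd (P ^ n) W) := by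
    rw [(Ideal.isCoprime_iff_gcd).1 hW]
    exact isUnit_one
  obtain ⟨D, hD⟩ := exists_eq_pow_of_mul_eq_pow hu h
  obtain ⟨t, -, ht⟩ := (dvd_prime_pow hPp _).1 (by rw [hD]; exact dvd_pow_self D hℓ : D ∣ P ^ n)
  rw [associated_iff_eq] at ht
  rw [ht, ← pow_mul] at hD
  have h2 := IsMulTorsionFree.pow_right_injective₀ (M := Ideal (𝓞 F)) (x := P) (by
    rw [Ideal.one_eq_top]; exact hP.ne_top) (by exact hP0) hD
  exact ⟨t, by simpa [mul_comm] using h2⟩

theorem exists_data {m k N : ℕ} (hm : 1 ≤ m) (hk : 1 ≤ k)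
    (f : Multiplicative (Fin N → ZMod m) →* ClassGroup (𝓞 F)) (hf : Function.Injective f) :
    Nonempty (RData F m k N) := by
  classical
  -- the classes
  set c : Fin N → ClassGroup (𝓞 F) := fun i => f (Multiplicative.ofAdd (Pi.single i 1)) with hc
  have hcr : ∀ r : Fin N → ℕ, ∏ i, c i ^ r i = f (Multiplicative.ofAdd fun i => (r i : ZMod m)) := by
    intro r
    have h1 : (Multiplicative.ofAdd fun i => (r i : ZMod m)) =
        ∏ i, (Multiplicative.ofAdd (Pi.single i 1 : Fin N → ZMod m)) ^ r i := by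
      have h2 : (fun i => (r i : ZMod m)) = ∑ i, r i • (Pi.single i 1 : Fin N → ZMod m) := by
        funext j
        rw [Finset.sum_apply, Finset.sum_eq_single j]
        · simp
        · intro b _ hb
          simp [Pi.single_eq_of_ne hb.symm]
        · intro h
          exact absurd (Finset.mem_univ j) h
      rw [h2, ofAdd_sum]
      refine Finset.prod_congr rfl fun i _ => ?_
      rw [ofAdd_nsmul]
    rw [h1, map_prod]
    exact Finset.prod_congr rfl fun i _ => (map_pow _ _ _).symm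
  have hc1 : ∀ r : Fin N → ℕ, ∏ i, c i ^ r i = 1 → ∀ i, m ∣ r i := by
    intro r h i
    rw [hcr] at h
    have h1 := hf (h.trans (map_one f).symm)
    have h2 : (fun i => (r i : ZMod m)) = 0 := Multiplicative.ofAdd.injective h1
    exact (ZMod.natCast_eq_zero_iff _ _).1 (congrFun h2 i)
  have hcm : ∀ i, c i ^ m = 1 := by
    intro i
    simp only [hc]
    rw [← map_pow, ← ofAdd_nsmul]
    have : m • (Pi.single i 1 : Fin N → ZMod m) = 0 := by
      funext j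
      simp
    rw [this, ofAdd_zero, map_one]
  -- the primes
  set p : Fin (N + 1) → ℕ := fun i => Nat.nth Nat.Prime (m * k + i) with hp
  have hpp : ∀ i, (p i).Prime := fun i => Nat.prime_nth_prime _
  have hpmk : ∀ i, m * k < p i := fun i => by
    have := Nat.add_two_le_nth_prime (m * k + i)
    simp only [hp]
    omega
  have hpinj : ∀ i j, i ≠ j → Nat.Coprime (p i) (p j) := by
    intro i j hij
    rw [Nat.coprime_primes (hpp i) (hpp j)]
    intro h
    have h1 := Nat.nth_injective Nat.infinite_setOfPred_prime h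
    exact hij (Fin.ext (by omega))
  choose P hP using fun i => exists_over (F := F) (p i) (hpp i)
  have hP0 : ∀ i, (P i).asIdeal ≠ 0 := fun i => (P i).ne_bot
  have hPP : ∀ i j, i ≠ j → IsCoprime (P i).asIdeal (P j).asIdeal := fun i j hij =>
    cop_of (hpinj i j hij) (hP i) (hP j)
  set J : Ideal (𝓞 F) := ∏ i, (P i).asIdeal with hJ
  have hJ0 : J ≠ ⊥ := Finset.prod_ne_zero_iff.2 fun i _ => hP0 i
  have hPm : ∀ i, (P i).asIdeal ∈ (Ideal (𝓞 F))⁰ := fun i =>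
    mem_nonZeroDivisors_iff_ne_zero.2 (hP0 i)
  set PP : Fin (N + 1) → (Ideal (𝓞 F))⁰ := fun i => ⟨(P i).asIdeal, hPm i⟩ with hPPdef
  obtain ⟨I, i1, i2, i3⟩ := class_fam (N + 1) (Fin.cons ((∏ i, c i) * ClassGroup.mk0 (PP 0))⁻¹
    fun i => c i * (ClassGroup.mk0 (PP i.succ))⁻¹) J hJ0
  have hIP : ∀ i j, IsCoprime (I i : Ideal (𝓞 F)) (P j).asIdeal := fun i j =>
    (i2 i).of_isCoprime_of_dvd_right (Finset.dvd_prod_of_mem _ (Finset.mem_univ j))
  set AA : Fin N → (Ideal (𝓞 F))⁰ := fun i => PP i.succ * I i.succ with hAA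
  have hAAc : ∀ i, ClassGroup.mk0 (AA i) = c i := by
    intro i
    rw [hAA]
    simp only
    rw [map_mul, i1, Fin.cons_succ]
    rw [mul_comm, inv_mul_cancel_right]
  have hE : ClassGroup.mk0 (I 0) = ((∏ i, c i) * ClassGroup.mk0 (PP 0))⁻¹ := by
    rw [i1, Fin.cons_zero]
  have hAAv : ∀ i, (AA i : Ideal (𝓞 F)) = (P i.succ).asIdeal * (I i.succ : Ideal (𝓞 F)) :=
    fun i => rfl
  have cAA : ∀ i j, i ≠ j → IsCoprime (AA i : Ideal (𝓞 F)) (AA j : Ideal (𝓞 F)) := by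
    intro i j hij
    have hij' : i.succ ≠ j.succ := fun h => hij (Fin.succ_injective _ h)
    rw [hAAv, hAAv]
    exact IsCoprime.mul_left (IsCoprime.mul_right (hPP _ _ hij') (hIP _ _).symm)
      (IsCoprime.mul_right (hIP _ _) (i3 _ _ hij'))
  have cAP : ∀ i, IsCoprime (AA i : Ideal (𝓞 F)) (P 0).asIdeal := by
    intro i
    rw [hAAv]
    exact IsCoprime.mul_left (hPP _ _ (Fin.succ_ne_zero i)) (hIP _ _)
  have cAE : ∀ i, IsCoprime (AA i : Ideal (𝓞 F)) (I 0 : Ideal (𝓞 F)) := by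
    intro i
    rw [hAAv]
    exact IsCoprime.mul_left (hIP _ _).symm (i3 _ _ (Fin.succ_ne_zero i))
  obtain ⟨δ, hδ⟩ := principal_of ((∏ i, AA i) * PP 0 * I 0) (by
    rw [map_mul, map_mul, map_prod, hE, Finset.prod_congr rfl fun i _ => hAAc i, mul_inv_cancel])
  have hα' : ∀ i, ∃ a : 𝓞 F, Ideal.span {a} = ((AA i ^ m : (Ideal (𝓞 F))⁰) : Ideal (𝓞 F)) :=
    fun i => principal_of _ (by rw [map_pow, hAAc, hcm])
  choose α hα using hα'
  have hδ' : Ideal.span {δ} = (∏ i, (AA i : Ideal (𝓞 F))) * (P 0).asIdeal * (I 0 : Ideal (𝓞 F)) := by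
    rw [hδ]
    push_cast
    rfl
  have hα1 : ∀ i, Ideal.span {α i} = (AA i : Ideal (𝓞 F)) ^ m := fun i => by
    rw [hα]
    rfl
  have hα0 : ∀ i, α i ≠ 0 := by
    intro i h
    have h1 := hα i
    rw [h, Ideal.span_singleton_zero] at h1
    exact nonZeroDivisors.coe_ne_zero _ h1.symm
  refine ⟨⟨α, fun i => (AA i : Ideal (𝓞 F)), fun i => (∏ j ∈ Finset.univ.erase i,
    (AA j : Ideal (𝓞 F))) * (P 0).asIdeal * (I 0 : Ideal (𝓞 F)), δ, P 0, hα1, ?_, ?_, hα0, ?_, ?_,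
    ?_, ?_, ?_⟩⟩
  · intro i
    rw [hδ', ← Finset.mul_prod_erase _ _ (Finset.mem_univ i), mul_assoc, mul_assoc, mul_assoc]
  · intro i
    refine IsCoprime.mul_right (IsCoprime.mul_right ?_ (cAP i)) (cAE i)
    exact IsCoprime.prod_right fun j hj => cAA i j (Finset.ne_of_mem_erase hj).symm
  · have h1 : Ideal.span {δ} ≤ (P 0).asIdeal := by
      rw [hδ', mul_assoc, mul_left_comm]
      exact Ideal.mul_le_left
    exact h1 (Ideal.mem_span_singleton_self δ)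
  · intro h
    have h1 : (P 0).asIdeal ^ 2 ∣ Ideal.span {δ} := by
      rw [Ideal.dvd_iff_le, Ideal.span_le]
      simpa using h
    have h2 : (P 0).asIdeal * (P 0).asIdeal ∣ (P 0).asIdeal *
        ((∏ i, (AA i : Ideal (𝓞 F))) * (I 0 : Ideal (𝓞 F))) := by
      rw [← sq]
      refine h1.trans (dvd_of_eq ?_)
      rw [hδ']
      ring
    have h3 := (mul_dvd_mul_iff_left (hP0 0)).1 h2
    rw [Ideal.dvd_iff_le] at h3
    refine prime_not (P 0).isPrime ?_ h3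
    exact IsCoprime.mul_left (IsCoprime.prod_left fun i _ => cAP i) (hIP 0 0)
  · intro i h
    refine prime_not (P 0).isPrime (cAP i).pow_left (B := (AA i : Ideal (𝓞 F)) ^ m) ?_
    rw [← hα1, Ideal.span_le]
    simpa using h
  · intro h
    have h1 : Nat.Coprime (p 0) (m * k) := by
      rw [(hpp 0).coprime_iff_not_dvd]
      intro h
      have := Nat.le_of_dvd (Nat.mul_pos hm hk) h
      have := hpmk 0
      omega
    exact prime_not (P 0).isPrime (cop_of h1 (hP 0) h) le_rfl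
  · intro ℓ hℓ hℓmk e x hx
    obtain ⟨b, hb⟩ := reduce α hα0 ℓ hℓ.pos e x hx
    set r : Fin N → ℕ := fun i => (e i % ℓ).toNat with hr
    have hl0 : (0 : ℤ) < ℓ := by exact_mod_cast hℓ.pos
    have hred : ∀ i, ℓ ∣ r i → (ℓ : ℤ) ∣ e i := by
      intro i h
      have h6 := Int.emod_nonneg (e i) hl0.ne'
      have h7 := Int.emod_add_mul_ediv (e i) ℓ
      have h8 : ((r i : ℕ) : ℤ) = e i % ℓ := Int.toNat_of_nonneg h6
      have h9 : (ℓ : ℤ) ∣ e i % ℓ := by
        rw [← h8]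
        exact_mod_cast h
      rw [← h7]
      exact h9.add (Dvd.intro _ rfl)
    have hid : ∏ i, (AA i : Ideal (𝓞 F)) ^ (m * r i) = Ideal.span {b} ^ ℓ := by
      rw [Ideal.span_singleton_pow, ← hb, ← Ideal.prod_span_singleton]
      refine Finset.prod_congr rfl fun i _ => ?_
      rw [pow_mul, ← hα1, Ideal.span_singleton_pow]
    intro i
    apply hred
    by_cases hℓm : ℓ ∣ m
    · obtain ⟨m', hm'⟩ := hℓm
      have hm'0 : 0 < m' := Nat.pos_of_ne_zero fun h => by rw [h] at hm'; omega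
      have h1 : (∏ i, (AA i : Ideal (𝓞 F)) ^ (m' * r i)) ^ ℓ = Ideal.span {b} ^ ℓ := by
        rw [← hid, ← Finset.prod_pow]
        refine Finset.prod_congr rfl fun i _ => ?_
        rw [← pow_mul, hm']
        congr 1
        ring
      have h2 := pow_left_injective hℓ.ne_zero h1
      have h3 := mk0_of_principal (∏ i, AA i ^ (m' * r i)) b (by
        rw [← h2]
        push_cast
        rfl)
      rw [map_prod] at h3
      have h4 := hc1 (fun i => m' * r i) (by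
        rw [← h3]
        refine Finset.prod_congr rfl fun i _ => ?_
        rw [map_pow, hAAc]) i
      rw [hm', mul_comm ℓ m'] at h4
      exact Nat.dvd_of_mul_dvd_mul_left hm'0 h4
    · have h1 : (P i.succ).asIdeal ^ (m * r i) * ((I i.succ : Ideal (𝓞 F)) ^ (m * r i) *
          ∏ j ∈ Finset.univ.erase i, (AA j : Ideal (𝓞 F)) ^ (m * r j)) = Ideal.span {b} ^ ℓ := by
        rw [← hid, ← Finset.mul_prod_erase _ _ (Finset.mem_univ i), ← mul_assoc, ← mul_pow, hAAv]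
      have h2 := prime_pow_eq (D := ⊤) (P i.succ).isPrime (P i.succ).ne_bot hℓ.ne_zero (by
        refine IsCoprime.mul_right (hIP _ _).symm.pow (IsCoprime.prod_right fun j hj => ?_)
        refine IsCoprime.pow ?_
        rw [hAAv]
        have hij : i.succ ≠ j.succ := fun h => (Finset.ne_of_mem_erase hj) (Fin.succ_injective _ h).symm
        exact IsCoprime.mul_right (hPP _ _ hij) (hIP _ _).symm) h1
      exact (hℓ.dvd_mul.1 h2).resolve_left hℓm

end Pool.Agent.U907.MR
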