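import Mathlib

/-!
# Extensions by roots, irreducible by the criterion of Eisenstein
-/

set_option autoImplicit false

namespace Pool.Agent.U907.MR

open NumberField IsDedekindDomain Polynomial

theorem irr (F : Type) [Field F] [NumberField F] (k : ℕ) (hk : 1 ≤ k) (δ : 𝓞 F)
    (q : HeightOneSpectrum (𝓞 F)) (h1 : δ ∈ q.asIdeal) (h2 : δ ∉ q.asIdeal ^ 2) :
    Irreducible (X ^ k - C (δ : F) : F[X]) := by
  have hm : (X ^ k - C δ : (𝓞 F)[X]).Monic := monic_X_pow_sub_C δ (by omega)
  have hdeg : (X ^ k - C δ : (𝓞 F)[X]).degree = k := degree_X_pow_sub_C (by omega) δ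
  have h3 : Irreducible (X ^ k - C δ : (𝓞 F)[X]) := by
    refine irreducible_of_eisenstein_criterion (P := q.asIdeal) q.isPrime ?_ ?_ ?_ ?_ hm.isPrimitive
    · rw [hm.leadingCoeff]
      exact fun h => q.isPrime.ne_top ((Ideal.eq_top_iff_one _).2 h)
    · intro n hn
      rw [hdeg] at hn
      have hn' : n < k := by exact_mod_cast hn
      rw [coeff_sub, coeff_X_pow, if_neg (by omega), zero_sub, coeff_C]
      split_ifs
      · exact neg_mem h1
      · simp
    · rw [hdeg]
      exact_mod_cast hk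
    · rw [coeff_sub, coeff_X_pow, if_neg (by omega), zero_sub, coeff_C_zero]
      intro h
      exact h2 (by simpa using neg_mem h)
  have h4 := (Polynomial.Monic.irreducible_iff_irreducible_map_fraction_map (K := F) hm).1 h3
  simpa using h4

theorem exists_ext (F : Type) [Field F] [NumberField F] (k : ℕ) (hk : 1 ≤ k) (δ : 𝓞 F)
    (q : HeightOneSpectrum (𝓞 F)) (h1 : δ ∈ q.asIdeal) (h2 : δ ∉ q.asIdeal ^ 2) :
    ∃ (K : Type) (_ : Field K) (_ : NumberField K) (_ : Algebra F K) (θ : K),
      Module.finrank F K = k ∧ θ ^ k = algebraMap F K (δ : F) ∧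
      ∀ y : K, ∃ c : Fin k → F, y = ∑ j, algebraMap F K (c j) * θ ^ (j : ℕ) := by
  have hirr := irr F k hk δ q h1 h2
  set f : F[X] := X ^ k - C (δ : F) with hf
  have : Fact (Irreducible f) := ⟨hirr⟩
  have hdeg : f.natDegree = k := natDegree_X_pow_sub_C
  let pb := AdjoinRoot.powerBasis hirr.ne_zero
  have hdim : pb.dim = k := by rw [AdjoinRoot.powerBasis_dim, hdeg]
  have : FiniteDimensional F (AdjoinRoot f) := pb.finite
  have hN : NumberField (AdjoinRoot f) := NumberField.of_module_finite F (AdjoinRoot f)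
  refine ⟨AdjoinRoot f, inferInstance, hN, inferInstance, AdjoinRoot.root f, ?_, ?_, ?_⟩
  · rw [pb.finrank, hdim]
  · have h3 := AdjoinRoot.eval₂_root f
    rw [hf, eval₂_sub, eval₂_X_pow, eval₂_C, sub_eq_zero] at h3
    exact h3
  · intro y
    refine ⟨fun j => (pb.basis.reindex (finCongr hdim)).repr y j, ?_⟩
    conv_lhs => rw [← (pb.basis.reindex (finCongr hdim)).sum_repr y]
    refine Finset.sum_congr rfl fun j _ => ?_
    rw [Algebra.smul_def]
    congr 1
    rw [Module.Basis.reindex_apply, pb.basis_eq_pow]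
    rfl

end Pool.Agent.U907.MR
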