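import Mathlib

/-!
# The equation `z² = p x² + q y²` for primes `p`, `q` which are squares modulo each other
-/

set_option autoImplicit false

namespace Pool.Agent.U907.MR

theorem no_sq {p : ℕ} (hp : p.Prime) {Z X : ℤ} (h : Z ^ 2 = p * X ^ 2) : X = 0 := by
  by_contra hX
  have h1 : IsSquare ((p : ℕ) : ℚ) := by
    refine ⟨(Z : ℚ) / X, ?_⟩
    have hX' : (X : ℚ) ≠ 0 := by exact_mod_cast hX
    have h2 : (Z : ℚ) ^ 2 = p * X ^ 2 := by exact_mod_cast h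
    field_simp
    linarith
  exact (Nat.prime_iff.1 hp).not_isSquare (Rat.isSquare_natCast_iff.1 h1)

theorem pigeon (p q : ℕ) (hp : 0 < p) (hq : 0 < q) (s r : ℤ) :
    ∃ X Y Z : ℤ, (X, Y, Z) ≠ (0, 0, 0) ∧ X ^ 2 ≤ q ∧ Y ^ 2 ≤ p ∧ Z ^ 2 ≤ p * q ∧
      (q : ℤ) ∣ Z - s * X ∧ (p : ℤ) ∣ Z - r * Y := by
  have : NeZero p := ⟨hp.ne'⟩
  have : NeZero q := ⟨hq.ne'⟩
  set a := Nat.sqrt q with ha
  set b := Nat.sqrt p with hb
  set c := Nat.sqrt (p * q) with hc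
  have ha1 : q < (a + 1) ^ 2 := Nat.lt_succ_sqrt' q
  have hb1 : p < (b + 1) ^ 2 := Nat.lt_succ_sqrt' p
  have hc1 : p * q < (c + 1) ^ 2 := Nat.lt_succ_sqrt' (p * q)
  have ha2 : a ^ 2 ≤ q := Nat.sqrt_le' q
  have hb2 : b ^ 2 ≤ p := Nat.sqrt_le' p
  have hc2 : c ^ 2 ≤ p * q := Nat.sqrt_le' (p * q)
  have hcard : Fintype.card (ZMod q × ZMod p) <
      Fintype.card (Fin (a + 1) × Fin (b + 1) × Fin (c + 1)) := by
    rw [Fintype.card_prod, Fintype.card_prod, Fintype.card_prod, ZMod.card, ZMod.card,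
      Fintype.card_fin, Fintype.card_fin, Fintype.card_fin]
    have h1 : (q * p) ^ 2 < ((a + 1) * ((b + 1) * (c + 1))) ^ 2 := by
      have h2 : q * p < (a + 1) ^ 2 * (b + 1) ^ 2 := Nat.mul_lt_mul'' ha1 hb1
      have h3 : (q * p) * (p * q) < ((a + 1) ^ 2 * (b + 1) ^ 2) * (c + 1) ^ 2 :=
        Nat.mul_lt_mul'' h2 hc1
      calc (q * p) ^ 2 = (q * p) * (p * q) := by ring
        _ < _ := h3
        _ = _ := by ring
    exact lt_of_pow_lt_pow_left₀ 2 (by positivity) h1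
  obtain ⟨v, w, hne, hvw⟩ := Fintype.exists_ne_map_eq_of_card_lt
    (fun v : Fin (a + 1) × Fin (b + 1) × Fin (c + 1) =>
      (((((v.2.2 : ℕ) : ℤ) - s * ((v.1 : ℕ) : ℤ) : ℤ) : ZMod q),
        ((((v.2.2 : ℕ) : ℤ) - r * ((v.2.1 : ℕ) : ℤ) : ℤ) : ZMod p))) hcard
  obtain ⟨v1, v2, v3⟩ := v
  obtain ⟨w1, w2, w3⟩ := w
  simp only [Prod.mk.injEq] at hvw
  obtain ⟨e1, e2⟩ := hvw
  rw [ZMod.intCast_eq_intCast_iff_dvd_sub] at e1 e2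
  have hsq : ∀ (p q k : ℕ), p < k + 1 → q < k + 1 → ((q : ℤ) - (p : ℤ)) ^ 2 ≤ (k : ℤ) ^ 2 := by
    intro p q k hp hq
    have h1 : -(k : ℤ) ≤ (q : ℤ) - (p : ℤ) := by omega
    have h2 : (q : ℤ) - (p : ℤ) ≤ k := by omega
    nlinarith
  refine ⟨(w1 : ℕ) - (v1 : ℕ), (w2 : ℕ) - (v2 : ℕ), (w3 : ℕ) - (v3 : ℕ), ?_, ?_, ?_, ?_, ?_, ?_⟩
  · intro h
    rw [Prod.mk.injEq, Prod.mk.injEq] at h
    obtain ⟨h1, h2, h3⟩ := h
    apply hne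
    have g1 : v1 = w1 := Fin.ext (by omega)
    have g2 : v2 = w2 := Fin.ext (by omega)
    have g3 : v3 = w3 := Fin.ext (by omega)
    rw [g1, g2, g3]
  · exact (hsq _ _ a v1.2 w1.2).trans (by exact_mod_cast ha2)
  · exact (hsq _ _ b v2.2 w2.2).trans (by exact_mod_cast hb2)
  · exact (hsq _ _ c v3.2 w3.2).trans (by exact_mod_cast hc2)
  · convert e1 using 1
    ring
  · convert e2 using 1
    ring

theorem leg2 {p q : ℕ} (hp : p.Prime) (hq : q.Prime) (hpq : p ≠ q)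
    (h1 : ∃ s : ℤ, (q : ℤ) ∣ s ^ 2 - p) (h2 : ∃ r : ℤ, (p : ℤ) ∣ r ^ 2 - q) :
    ∃ X Y Z : ℤ, Y ≠ 0 ∧ Z ^ 2 - p * X ^ 2 = q * Y ^ 2 := by
  obtain ⟨s, hs⟩ := h1
  obtain ⟨r, hr⟩ := h2
  obtain ⟨X, Y, Z, hne, hX, hY, hZ, d1, d2⟩ := pigeon p q hp.pos hq.pos s r
  have hpz : (0 : ℤ) < p := by exact_mod_cast hp.pos
  have hqz : (0 : ℤ) < q := by exact_mod_cast hq.pos
  have hX' : X ^ 2 < q := by
    refine lt_of_le_of_ne hX fun h => ?_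
    exact (Nat.prime_iff_prime_int.1 hq).not_isSquare ⟨X, by rw [← h, sq]⟩
  have hY' : Y ^ 2 < p := by
    refine lt_of_le_of_ne hY fun h => ?_
    exact (Nat.prime_iff_prime_int.1 hp).not_isSquare ⟨Y, by rw [← h, sq]⟩
  have hZ' : Z ^ 2 < p * q := by
    refine lt_of_le_of_ne hZ fun h => ?_
    have hpp := Nat.prime_iff_prime_int.1 hp
    have h3 : (p : ℤ) ∣ Z := hpp.dvd_of_dvd_pow (n := 2) (by rw [h]; exact Dvd.intro _ rfl)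
    obtain ⟨t, ht⟩ := h3
    have h4 : (p : ℤ) * t ^ 2 = q := by
      apply mul_left_cancel₀ hpz.ne'
      rw [← h, ht]
      ring
    have h5 : (p : ℤ) ∣ q := Dvd.intro _ h4
    have h6 : p ∣ q := by exact_mod_cast h5
    exact hpq ((Nat.prime_dvd_prime_iff_eq hp hq).1 h6)
  have f1 : (q : ℤ) ∣ Z ^ 2 - p * X ^ 2 - q * Y ^ 2 := by
    obtain ⟨u, hu⟩ := d1
    obtain ⟨v, hv⟩ := hs
    refine ⟨u * (Z + s * X) + v * X ^ 2 - Y ^ 2, ?_⟩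
    linear_combination (Z + s * X) * hu + X ^ 2 * hv
  have f2 : (p : ℤ) ∣ Z ^ 2 - p * X ^ 2 - q * Y ^ 2 := by
    obtain ⟨u, hu⟩ := d2
    obtain ⟨v, hv⟩ := hr
    refine ⟨u * (Z + r * Y) + v * Y ^ 2 - X ^ 2, ?_⟩
    linear_combination (Z + r * Y) * hu + Y ^ 2 * hv
  have hcop : IsCoprime (p : ℤ) (q : ℤ) :=
    Nat.isCoprime_iff_coprime.2 ((Nat.coprime_primes hp hq).2 hpq)
  obtain ⟨k, hk⟩ : ((p : ℤ) * q) ∣ Z ^ 2 - p * X ^ 2 - q * Y ^ 2 := hcop.mul_dvd f2 f1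
  have hpos : (0 : ℤ) < p * q := mul_pos hpz hqz
  have hpX : (p : ℤ) * X ^ 2 < p * q := mul_lt_mul_of_pos_left hX' hpz
  have hqY : (q : ℤ) * Y ^ 2 < q * p := mul_lt_mul_of_pos_left hY' hqz
  have hpX0 : 0 ≤ (p : ℤ) * X ^ 2 := by positivity
  have hqY0 : 0 ≤ (q : ℤ) * Y ^ 2 := by positivity
  have hZ0 := sq_nonneg Z
  have hk1 : -2 < k := by
    by_contra hcon
    have : k ≤ -2 := by omega
    nlinarith
  have hk2 : k < 1 := by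
    by_contra hcon
    have : 1 ≤ k := by omega
    nlinarith
  have hk3 : k = 0 ∨ k = -1 := by omega
  rcases hk3 with rfl | rfl
  · rw [mul_zero] at hk
    refine ⟨X, Y, Z, ?_, by linarith⟩
    rintro rfl
    have h3 : Z ^ 2 = p * X ^ 2 := by linarith
    have h4 := no_sq hp h3
    rw [h4] at h3
    have h5 : Z = 0 := by simpa using h3
    exact hne (by rw [h4, h5])
  · refine ⟨X * Z + q * Y, Y * Z - p * X, Z ^ 2 + p * q, ?_, ?_⟩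
    · intro h
      have h3 : (Z ^ 2 + p * q) ^ 2 = p * (X * Z + q * Y) ^ 2 := by
        have h4 : (Z ^ 2 + p * q) ^ 2 = p * (X * Z + q * Y) ^ 2 + q * (Y * Z - p * X) ^ 2 := by
          have h5 : (p : ℤ) * X ^ 2 + q * Y ^ 2 = Z ^ 2 + p * q := by linarith
          calc (Z ^ 2 + p * q) ^ 2 = (Z ^ 2 + p * q) * (p * X ^ 2 + q * Y ^ 2) := by rw [h5]; ring
            _ = _ := by ring
        rw [h4, h]
        ring
      have h4 := no_sq hp h3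
      rw [h4] at h3
      nlinarith
    · have h5 : (p : ℤ) * X ^ 2 + q * Y ^ 2 = Z ^ 2 + p * q := by linarith
      have h6 : (Z ^ 2 + p * q) ^ 2 = (Z ^ 2 + p * q) * (p * X ^ 2 + q * Y ^ 2) := by rw [h5]; ring
      rw [h6]
      ring

/-- products of norms -/
theorem leg_prod {ι : Type} [DecidableEq ι] (p : ℤ) (q : ι → ℤ) (S : Finset ι)
    (h : ∀ i ∈ S, ∃ X Y Z : ℤ, Y ≠ 0 ∧ Z ^ 2 - p * X ^ 2 = q i * Y ^ 2) :
    ∃ X Y Z : ℤ, Y ≠ 0 ∧ Z ^ 2 - p * X ^ 2 = (∏ i ∈ S, q i) * Y ^ 2 := by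
  induction S using Finset.induction_on with
  | empty => exact ⟨0, 1, 1, one_ne_zero, by simp⟩
  | insert i S hi ih =>
    obtain ⟨X, Y, Z, h1, h2⟩ := ih fun j hj => h j (Finset.mem_insert_of_mem hj)
    obtain ⟨X', Y', Z', h3, h4⟩ := h i (Finset.mem_insert_self _ _)
    refine ⟨Z * X' + Z' * X, Y * Y', Z * Z' + p * X * X', mul_ne_zero h1 h3, ?_⟩
    rw [Finset.prod_insert hi]
    linear_combination (q i * Y' ^ 2) * h2 + (Z ^ 2 - p * X ^ 2) * h4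

/-- primitive solutions -/
theorem primitive {p E : ℤ} (h : ∃ X Y Z : ℤ, Y ≠ 0 ∧ Z ^ 2 - p * X ^ 2 = E * Y ^ 2) :
    ∃ X Y Z : ℤ, Y ≠ 0 ∧ Z ^ 2 - p * X ^ 2 = E * Y ^ 2 ∧ ∃ u v w : ℤ, u * X + v * Y + w * Z = 1 := by
  obtain ⟨X, Y, Z, hY, h⟩ := h
  set g₁ : ℤ := (Int.gcd X Y : ℤ) with hg₁
  set g : ℤ := (Int.gcd g₁ Z : ℤ) with hg
  have hg₁Y : g₁ ∣ Y := Int.gcd_dvd_right _ _
  have hg₁X : g₁ ∣ X := Int.gcd_dvd_left _ _
  have hgg : g ∣ g₁ := Int.gcd_dvd_left _ _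
  have hgZ : g ∣ Z := Int.gcd_dvd_right _ _
  obtain ⟨X', hX'⟩ := hgg.trans hg₁X
  obtain ⟨Y', hY'⟩ := hgg.trans hg₁Y
  obtain ⟨Z', hZ'⟩ := hgZ
  have hg0 : g ≠ 0 := by
    intro h0
    rw [h0, zero_mul] at hY'
    exact hY hY'
  have hb1 : g₁ = X * Int.gcdA X Y + Y * Int.gcdB X Y := Int.gcd_eq_gcd_ab X Y
  have hb2 : g = g₁ * Int.gcdA g₁ Z + Z * Int.gcdB g₁ Z := Int.gcd_eq_gcd_ab g₁ Z
  refine ⟨X', Y', Z', ?_, ?_, Int.gcdA X Y * Int.gcdA g₁ Z, Int.gcdB X Y * Int.gcdA g₁ Z,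
    Int.gcdB g₁ Z, ?_⟩
  · rintro rfl
    rw [mul_zero] at hY'
    exact hY hY'
  · apply mul_left_cancel₀ (pow_ne_zero 2 hg0)
    rw [hX', hY', hZ'] at h
    linear_combination h
  · apply mul_left_cancel₀ hg0
    have h3 : g * 1 = (X * Int.gcdA X Y + Y * Int.gcdB X Y) * Int.gcdA g₁ Z + Z * Int.gcdB g₁ Z := by
      rw [mul_one, ← hb1]
      exact hb2
    rw [h3]
    linear_combination -(Int.gcdA X Y * Int.gcdA g₁ Z) * hX' - (Int.gcdB X Y * Int.gcdA g₁ Z) * hY' -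
      (Int.gcdB g₁ Z) * hZ'

end Pool.Agent.U907.MR
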