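import Mathlib

/-!
# Roots in a totally ramified extension
-/

set_option autoImplicit false

namespace Pool.Agent.U907.MR

open WithZero

/-- the valuation of a sum of terms with different valuations -/
theorem sum_val {K : Type} [Field K] (w : Valuation K ℤᵐ⁰) {ι : Type} [DecidableEq ι] (T : ι → K)
    (S : Finset ι) : S.Nonempty → (∀ i ∈ S, ∀ j ∈ S, i ≠ j → w (T i) ≠ w (T j)) →
      ∃ j ∈ S, w (∑ i ∈ S, T i) = w (T j) := by
  induction S using Finset.induction_on with
  | empty => exact fun h => absurd h (by simp)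
  | insert i S hi ih =>
    intro _ hd
    rw [Finset.sum_insert hi]
    by_cases hS : S.Nonempty
    · obtain ⟨j, hj, h⟩ := ih hS fun a ha b hb => hd a (Finset.mem_insert_of_mem ha) b
        (Finset.mem_insert_of_mem hb)
      have hij : i ≠ j := fun e => hi (e ▸ hj)
      have h1 : w (T i) ≠ w (∑ i ∈ S, T i) := by
        rw [h]
        exact hd i (Finset.mem_insert_self _ _) j (Finset.mem_insert_of_mem hj) hij
      rw [Valuation.map_add_of_distinct_val _ h1, h]
      rcases max_choice (w (T i)) (w (T j)) with h2 | h2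
      · exact ⟨i, Finset.mem_insert_self _ _, h2⟩
      · exact ⟨j, Finset.mem_insert_of_mem hj, h2⟩
    · rw [Finset.not_nonempty_iff_eq_empty] at hS
      subst hS
      exact ⟨i, by simp, by simp⟩

theorem pow_eq_one' {x : ℤᵐ⁰} {n : ℕ} (hn : n ≠ 0) (h : x ^ n = 1) : x = 1 := by
  have hx : x ≠ 0 := by
    rintro rfl
    rw [zero_pow hn] at h
    exact zero_ne_one h
  obtain ⟨b, rfl⟩ : ∃ b : ℤ, x = exp b := ⟨log x, (exp_log hx).symm⟩
  rw [← exp_nsmul, ← exp_zero, exp_inj, nsmul_eq_mul] at h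
  have : b = 0 := by
    rcases mul_eq_zero.1 h with h | h
    · exact absurd (by exact_mod_cast h) hn
    · exact h
  rw [this, exp_zero]

/-- In a totally ramified extension `F(θ)`, `θ ^ k ∈ F`, the `ℓ`-th roots of the units of `F`, `ℓ` a
unit, lie in `F`. -/
theorem root_mem {F K : Type} [Field F] [Field K] [Algebra F K] (w : Valuation K ℤᵐ⁰) (θ : K)
    (k : ℕ) (a : ℤ) (ha : 0 < a) (hθ : w θ = exp (-a))
    (hF : ∀ c : F, c ≠ 0 → ∃ n : ℤ, w (algebraMap F K c) = exp (a * (k * n)))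
    (hrep : ∀ y : K, ∃ c : Fin k → F, y = ∑ j, algebraMap F K (c j) * θ ^ (j : ℕ))
    (ℓ : ℕ) (hℓ : ℓ ≠ 0) (hwℓ : w (ℓ : K) = 1) (y : K) (x : F)
    (hx : y ^ ℓ = algebraMap F K x) (hwx : w (algebraMap F K x) = 1) :
    ∃ c : F, y = algebraMap F K c := by
  classical
  have hwy : w y = 1 := pow_eq_one' hℓ (by rw [← map_pow, hx, hwx])
  obtain ⟨c, hc⟩ := hrep y
  set T : Fin k → K := fun j => algebraMap F K (c j) * θ ^ (j : ℕ) with hT
  set S : Finset (Fin k) := Finset.univ.filter fun j => c j ≠ 0 with hS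
  have hwT : ∀ j ∈ S, ∃ n : ℤ, w (T j) = exp (a * (k * n - (j : ℕ))) := by
    intro j hj
    rw [hS, Finset.mem_filter] at hj
    obtain ⟨n, hn⟩ := hF (c j) hj.2
    refine ⟨n, ?_⟩
    simp only [hT]
    rw [map_mul, map_pow, hn, hθ, ← exp_nsmul, ← exp_add]
    congr 1
    rw [nsmul_eq_mul]
    ring
  have hkey : ∀ (i j : Fin k) (n n' : ℤ), (k : ℤ) * n - (i : ℕ) = k * n' - (j : ℕ) → i = j := by
    intro i j n n' h
    have hi := i.2
    have hj := j.2
    have h1 : (k : ℤ) * (n - n') = (i : ℕ) - (j : ℕ) := by linarith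
    have h2 : n - n' = 0 := by
      by_contra hne
      have h3 : (k : ℤ) ≤ |(k : ℤ) * (n - n')| := by
        rw [abs_mul]
        have h4 : 1 ≤ |n - n'| := Int.one_le_abs hne
        have h5 : |(k : ℤ)| = k := abs_of_nonneg (by positivity)
        rw [h5]
        nlinarith [show (0 : ℤ) ≤ k by positivity]
      rw [h1] at h3
      have h6 : |((i : ℕ) : ℤ) - ((j : ℕ) : ℤ)| < k := by
        rw [abs_lt]
        constructor <;> omega
      omega
    apply Fin.ext
    rw [h2, mul_zero] at h1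
    omega
  have hexp : ∀ u v : ℤ, exp (a * u) = exp (a * v) → u = v := by
    intro u v h
    exact mul_left_cancel₀ ha.ne' (exp_inj.1 h)
  have hdist : ∀ i ∈ S, ∀ j ∈ S, i ≠ j → w (T i) ≠ w (T j) := by
    intro i hi j hj hij h
    obtain ⟨n, hn⟩ := hwT i hi
    obtain ⟨n', hn'⟩ := hwT j hj
    rw [hn, hn'] at h
    exact hij (hkey i j n n' (hexp _ _ h))
  have hySum : y = ∑ j ∈ S, T j := by
    rw [hc, hS, Finset.sum_filter]
    refine Finset.sum_congr rfl fun j _ => ?_
    split_ifs with h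
    · rfl
    · have h' : c j = 0 := by
        by_contra h''
        exact h h''
      show algebraMap F K (c j) * θ ^ (j : ℕ) = 0
      rw [h', map_zero, zero_mul]
  have hSne : S.Nonempty := by
    by_contra hne
    rw [Finset.not_nonempty_iff_eq_empty] at hne
    rw [hySum, hne, Finset.sum_empty, map_zero] at hwy
    exact zero_ne_one hwy
  obtain ⟨j₀, hj₀, h₀⟩ := sum_val w T S hSne hdist
  obtain ⟨n₀, hn₀⟩ := hwT j₀ hj₀
  rw [← hySum, hwy, hn₀, ← exp_zero] at h₀
  have h01 : (k : ℤ) * n₀ - (j₀ : ℕ) = 0 := by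
    have := exp_inj.1 h₀
    rcases mul_eq_zero.1 this.symm with h | h
    · exact absurd h ha.ne'
    · exact h
  have hj0 : (j₀ : ℕ) = 0 := by
    have hj := j₀.2
    have h2 : (k : ℤ) * n₀ = (j₀ : ℕ) := by linarith
    have h3 : (k : ℤ) ∣ ((j₀ : ℕ) : ℤ) := ⟨n₀, h2.symm⟩
    have h4 : k ∣ (j₀ : ℕ) := by exact_mod_cast h3
    exact Nat.eq_zero_of_dvd_of_lt h4 hj
  set c₀ : K := algebraMap F K (c j₀) with hc₀
  have hT0 : T j₀ = c₀ := by
    rw [hT]
    show algebraMap F K (c j₀) * θ ^ (j₀ : ℕ) = c₀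
    rw [hj0, pow_zero, mul_one]
  have hwc : w c₀ = 1 := by
    rw [← hT0, hn₀, h01, mul_zero, exp_zero]
  set η : K := ∑ j ∈ S.erase j₀, T j with hη
  have hyη : y = c₀ + η := by
    rw [hySum, ← Finset.add_sum_erase S T hj₀, hT0]
  by_cases hE : (S.erase j₀).Nonempty
  · exfalso
    obtain ⟨j₁, hj₁, h₁⟩ := sum_val w T (S.erase j₀) hE fun a ha b hb =>
      hdist a (Finset.mem_of_mem_erase ha) b (Finset.mem_of_mem_erase hb)
    obtain ⟨n₁, hn₁⟩ := hwT j₁ (Finset.mem_of_mem_erase hj₁)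
    have hne : w η ≠ 1 := by
      intro h
      rw [hη, h₁, hn₁, ← exp_zero] at h
      have h2 := exp_inj.1 h
      have h3 : (k : ℤ) * n₁ - (j₁ : ℕ) = k * 0 - (j₀ : ℕ) := by
        rcases mul_eq_zero.1 h2 with h | h
        · exact absurd h ha.ne'
        · rw [h, hj0]
          push_cast
          ring
      exact (Finset.ne_of_mem_erase hj₁) (hkey _ _ _ _ h3)
    have hlt : w η < 1 := by
      refine lt_of_le_of_ne ?_ hne
      have h2 : w y = max (w c₀) (w η) := by
        rw [hyη]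
        exact Valuation.map_add_of_distinct_val _ (by rw [hwc]; exact hne.symm)
      rw [hwy, hwc] at h2
      rw [h2]
      exact le_max_right _ _
    -- the factorisation
    have hfac : y ^ ℓ - c₀ ^ ℓ = η * ∑ i ∈ Finset.range ℓ, y ^ i * c₀ ^ (ℓ - 1 - i) := by
      have h2 := (Commute.all y c₀).geom_sum₂_mul ℓ
      rw [← h2, mul_comm]
      congr 1
      rw [hyη]
      ring
    have hpow : ∀ i : ℕ, w (y ^ i - c₀ ^ i) < 1 := by
      intro i
      have h2 := (Commute.all y c₀).geom_sum₂_mul i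
      have h3 : y - c₀ = η := by rw [hyη]; ring
      rw [← h2, h3, map_mul]
      have h4 : w (∑ i_1 ∈ Finset.range i, y ^ i_1 * c₀ ^ (i - 1 - i_1)) ≤ 1 := by
        refine Valuation.map_sum_le _ fun j _ => ?_
        rw [map_mul, map_pow, map_pow, hwy, hwc, one_pow, one_pow, one_mul]
      exact mul_lt_one_of_nonneg_of_lt_one_right h4 zero_le hlt
    have hsum1 : w (∑ i ∈ Finset.range ℓ, y ^ i * c₀ ^ (ℓ - 1 - i)) = 1 := by
      have h2 : ∑ i ∈ Finset.range ℓ, y ^ i * c₀ ^ (ℓ - 1 - i) =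
          (ℓ : K) * c₀ ^ (ℓ - 1) + ∑ i ∈ Finset.range ℓ, (y ^ i - c₀ ^ i) * c₀ ^ (ℓ - 1 - i) := by
        have h3 : (ℓ : K) * c₀ ^ (ℓ - 1) = ∑ i ∈ Finset.range ℓ, c₀ ^ i * c₀ ^ (ℓ - 1 - i) := by
          rw [Finset.sum_congr rfl (g := fun _ => c₀ ^ (ℓ - 1)), Finset.sum_const,
            Finset.card_range, nsmul_eq_mul]
          intro i hi
          rw [Finset.mem_range] at hi
          rw [← pow_add]
          congr 1
          omega
        rw [h3, ← Finset.sum_add_distrib]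
        refine Finset.sum_congr rfl fun i _ => ?_
        ring
      have h4 : w ((ℓ : K) * c₀ ^ (ℓ - 1)) = 1 := by
        rw [map_mul, map_pow, hwc, hwℓ, one_pow, one_mul]
      have h5 : w (∑ i ∈ Finset.range ℓ, (y ^ i - c₀ ^ i) * c₀ ^ (ℓ - 1 - i)) < 1 := by
        refine Valuation.map_sum_lt _ one_ne_zero fun i _ => ?_
        rw [map_mul, map_pow, hwc, one_pow, mul_one]
        exact hpow i
      rw [h2, Valuation.map_add_eq_of_lt_left _ (by rw [h4]; exact h5), h4]
    -- the contradiction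
    have h6 : algebraMap F K (x - c j₀ ^ ℓ) = η * ∑ i ∈ Finset.range ℓ, y ^ i * c₀ ^ (ℓ - 1 - i) := by
      rw [map_sub, map_pow, ← hx, ← hc₀, hfac]
    have h7 : w (algebraMap F K (x - c j₀ ^ ℓ)) = exp (a * (k * n₁ - (j₁ : ℕ))) := by
      rw [h6, map_mul, hsum1, mul_one, hη, h₁, hn₁]
    have h8 : x - c j₀ ^ ℓ ≠ 0 := by
      intro h
      rw [h, map_zero, map_zero] at h7
      exact exp_ne_zero h7.symm
    obtain ⟨n₂, hn₂⟩ := hF _ h8
    rw [hn₂] at h7
    have h9 := hexp _ _ h7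
    have h10 : (k : ℤ) * n₁ - (j₁ : ℕ) = k * n₂ - (j₀ : ℕ) := by
      rw [hj0]
      push_cast
      linarith
    exact (Finset.ne_of_mem_erase hj₁) (hkey _ _ _ _ h10)
  · rw [Finset.not_nonempty_iff_eq_empty] at hE
    refine ⟨c j₀, ?_⟩
    rw [hyη, hη, hE, Finset.sum_empty, add_zero]

end Pool.Agent.U907.MR
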