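import Pool.Agent.U907.MR.Cls
import Pool.Agent.U907.MR.Val
import Pool.Agent.U907.MR.Ext
import Pool.Agent.U907.MR.Data

/-!
# The extension with class group of larger exponent
-/

set_option autoImplicit false

namespace Pool.Agent.U907.MR

open NumberField IsDedekindDomain nonZeroDivisors WithZero

theorem rank_le (K : Type) [Field K] [NumberField K] : Units.rank K + 1 ≤ Module.finrank ℚ K := by
  have h1 := InfinitePlace.card_add_two_mul_card_eq_rank K
  have h2 := InfinitePlace.card_eq_nrRealPlaces_add_nrComplexPlaces K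
  have h3 : Units.rank K = Fintype.card (InfinitePlace K) - 1 := rfl
  have h4 : 0 < Fintype.card (InfinitePlace K) := Fintype.card_pos
  omega

/-- a principal ideal which is a power of an ideal -/
theorem frac_of {K : Type} [Field K] [NumberField K] (a : 𝓞 K) (ha : a ≠ 0) (B : Ideal (𝓞 K)) (n : ℕ)
    (hn : n ≠ 0) (h : B ^ n = Ideal.span {a}) (x : Kˣ) (hx : (x : K) = algebraMap (𝓞 K) K a) :
    ∃ I : (FractionalIdeal (𝓞 K)⁰ K)ˣ, I ^ n = toPrincipalIdeal (𝓞 K) K x := by
  have hB0 : B ≠ ⊥ := by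
    rintro rfl
    rw [← Ideal.zero_eq_bot, zero_pow hn, Ideal.zero_eq_bot, eq_comm,
      Ideal.span_singleton_eq_bot] at h
    exact ha h
  have hB1 : (B : FractionalIdeal (𝓞 K)⁰ K) ≠ 0 := FractionalIdeal.coeIdeal_ne_zero.2 hB0
  refine ⟨Units.mk0 _ hB1, ?_⟩
  apply Units.ext
  rw [Units.val_pow_eq_pow_val, Units.val_mk0, coe_toPrincipalIdeal, hx,
    ← FractionalIdeal.coeIdeal_pow, h, FractionalIdeal.coeIdeal_span_singleton]

theorem cop_map {A B : Type} [CommRing A] [CommRing B] (f : A →+* B) {I J : Ideal A}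
    (h : IsCoprime I J) : IsCoprime (I.map f) (J.map f) := by
  rw [Ideal.isCoprime_iff_exists] at h ⊢
  obtain ⟨i, hi, j, hj, hij⟩ := h
  exact ⟨f i, Ideal.mem_map_of_mem f hi, f j, Ideal.mem_map_of_mem f hj, by
    rw [← map_add, hij, map_one]⟩

theorem step {F : Type} [Field F] [NumberField F] {m k N : ℕ} (hk : 1 ≤ k)
    (hmk : 2 ≤ m * k) (D : RData F m k N) :
    ∃ (K : Type) (_ : Field K) (_ : NumberField K) (_ : Algebra F K), Module.finrank F K = k ∧
      ∀ R, R + Module.finrank ℚ F * k ≤ N →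
        ∃ f : Multiplicative (Fin R → ZMod (m * k)) →* ClassGroup (𝓞 K), Function.Injective f := by
  classical
  obtain ⟨K, _, _, _, θ, hfr, hθ, hrep⟩ := exists_ext F k hk D.δ D.q D.hδq D.hδq2
  refine ⟨K, inferInstance, inferInstance, inferInstance, hfr, fun R hR => ?_⟩
  have hfrK : Module.finrank ℚ K = Module.finrank ℚ F * k := by
    rw [← Module.finrank_mul_finrank ℚ F K, hfr]
  have hmk0 : m * k ≠ 0 := by omega
  -- the integer `θ`
  have hint : IsIntegral ℤ θ := by
    refine IsIntegral.of_pow (n := k) (by omega) ?_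
    rw [hθ]
    exact (RingOfIntegers.isIntegral_coe D.δ).algebraMap
  obtain ⟨θ', hθ'⟩ : ∃ b : 𝓞 K, algebraMap (𝓞 K) K b = θ := ⟨⟨θ, hint⟩, rfl⟩
  have htow : ∀ z : 𝓞 F, algebraMap (𝓞 K) K (algebraMap (𝓞 F) (𝓞 K) z) =
      algebraMap F K (algebraMap (𝓞 F) F z) := by
    intro z
    rw [← IsScalarTower.algebraMap_apply, ← IsScalarTower.algebraMap_apply]
  have hδθ : algebraMap (𝓞 F) (𝓞 K) D.δ = θ' ^ k := by
    apply RingOfIntegers.coe_injective
    rw [htow, map_pow, hθ', hθ]
  have hinjF : Function.Injective (algebraMap (𝓞 F) F) := RingOfIntegers.coe_injective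
  have hα0 : ∀ i, algebraMap (𝓞 F) F (D.α i) ≠ 0 := fun i h =>
    D.hα0 i ((map_eq_zero_iff _ hinjF).1 h)
  have hα0' : ∀ i, algebraMap (𝓞 F) (𝓞 K) (D.α i) ≠ 0 := by
    intro i h
    have h1 := htow (D.α i)
    rw [h, map_zero, eq_comm, map_eq_zero_iff _ (algebraMap F K).injective] at h1
    exact hα0 i h1
  have hg0 : ∀ i, algebraMap F K (algebraMap (𝓞 F) F (D.α i)) ≠ 0 := fun i =>
    (map_ne_zero_iff _ (algebraMap F K).injective).2 (hα0 i)
  refine clsg K N (m * k) R hmk (by have := rank_le K; omega) (fun i => Units.mk0 _ (hg0 i)) ?_ ?_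
  · intro i
    have h1 : (D.A i).map (algebraMap (𝓞 F) (𝓞 K)) * (D.C i).map (algebraMap (𝓞 F) (𝓞 K)) =
        Ideal.span {θ'} ^ k := by
      rw [← Ideal.map_mul, ← D.hδ i, Ideal.map_span, Set.image_singleton, hδθ,
        Ideal.span_singleton_pow]
    have h2 : IsUnit (gcd ((D.A i).map (algebraMap (𝓞 F) (𝓞 K)))
        ((D.C i).map (algebraMap (𝓞 F) (𝓞 K)))) := by
      rw [(Ideal.isCoprime_iff_gcd).1 (cop_map _ (D.hAC i))]
      exact isUnit_one
    obtain ⟨B, hB⟩ := exists_eq_pow_of_mul_eq_pow h2 h1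
    refine frac_of (algebraMap (𝓞 F) (𝓞 K) (D.α i)) (hα0' i) B (m * k) hmk0 ?_ _ ?_
    · rw [mul_comm m k, pow_mul, ← hB, ← Ideal.map_pow, ← D.hα i, Ideal.map_span,
        Set.image_singleton]
    · rw [htow]
      rfl
  · intro ℓ hℓ hℓmk e y hy
    -- a place above `q`
    have hqm : D.q.asIdeal.IsMaximal := D.q.isMaximal
    obtain ⟨Q, hQ, hQ'⟩ := Ideal.exists_maximal_ideal_liesOver_of_isIntegral (S := 𝓞 K) D.q.asIdeal
    have hQ0 : Q ≠ ⊥ := Ideal.ne_bot_of_liesOver_of_ne_bot D.q.ne_bot Q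
    let w : HeightOneSpectrum (𝓞 K) := ⟨Q, hQ.isPrime, hQ0⟩
    have hwl : w.asIdeal.LiesOver D.q.asIdeal := hQ'
    set E : ℕ := D.q.asIdeal.ramificationIdx' w.asIdeal with hE
    have hval : ∀ x : F, w.valuation K (algebraMap F K x) = D.q.valuation F x ^ E := fun x =>
      (HeightOneSpectrum.valuation_liesOver K D.q w x).symm
    have hE0 : E ≠ 0 := Ideal.IsDedekindDomain.ramificationIdx'_ne_zero_of_liesOver w.asIdeal D.q.ne_bot
    have hδ0 : D.δ ≠ 0 := by
      intro h
      exact D.hδq2 (by rw [h]; exact zero_mem _)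
    have hδv : D.q.valuation F (algebraMap (𝓞 F) F D.δ) = exp (-1) := by
      rw [HeightOneSpectrum.valuation_of_algebraMap]
      have h0 := D.q.intValuation_ne_zero D.δ hδ0
      have h1 := (D.q.intValuation_le_pow_iff_mem D.δ 1).2 (by rw [pow_one]; exact D.hδq)
      have h2 := mt (D.q.intValuation_le_pow_iff_mem D.δ 2).1 D.hδq2
      rw [← exp_log h0] at h1 h2 ⊢
      rw [exp_le_exp] at h1 h2
      rw [exp_inj]
      push_cast at h1 h2
      omega
    have hθ0 : θ ≠ 0 := by
      rintro rfl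
      rw [zero_pow (by omega), eq_comm, map_eq_zero_iff _ (algebraMap F K).injective] at hθ
      exact hδ0 ((map_eq_zero_iff _ hinjF).1 hθ)
    obtain ⟨b, hb⟩ : ∃ b : ℤ, w.valuation K θ = exp b :=
      ⟨log (w.valuation K θ), (exp_log ((Valuation.ne_zero_iff _).2 hθ0)).symm⟩
    have hkb : (k : ℤ) * b = -(E : ℤ) := by
      have h1 : w.valuation K (θ ^ k) = exp (-1) ^ E := by
        rw [hθ, hval]
        exact congrArg (· ^ E) hδv
      rw [map_pow, hb, ← exp_nsmul, ← exp_nsmul, exp_inj, nsmul_eq_mul, nsmul_eq_mul] at h1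
      linarith
    have hkpos : (0 : ℤ) < k := by exact_mod_cast hk
    have hEpos : (0 : ℤ) < E := by exact_mod_cast Nat.pos_of_ne_zero hE0
    have hb0 : 0 < -b := by
      by_contra h
      have : 0 ≤ (k : ℤ) * b := mul_nonneg hkpos.le (by linarith)
      linarith
    have hv1 : ∀ z : 𝓞 F, z ∉ D.q.asIdeal → D.q.valuation F (algebraMap (𝓞 F) F z) = 1 := by
      intro z hz
      exact (HeightOneSpectrum.valuation_eq_one_iff_notMem D.q).2 hz
    set x : F := ∏ i, (algebraMap (𝓞 F) F (D.α i)) ^ e i with hx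
    have hxy : (y : K) ^ ℓ = algebraMap F K x := by
      have h1 := congrArg (Units.val) hy
      rw [Units.val_pow_eq_pow_val, Units.coe_prod] at h1
      rw [← h1, hx, map_prod]
      refine Finset.prod_congr rfl fun i _ => ?_
      rw [Units.val_zpow_eq_zpow_val, Units.val_mk0, map_zpow₀]
    have hwx : w.valuation K (algebraMap F K x) = 1 := by
      rw [hval, hx, map_prod]
      rw [Finset.prod_eq_one, one_pow]
      intro i _
      rw [map_zpow₀, hv1 _ (D.hαq i), one_zpow]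
    obtain ⟨c, hc⟩ := root_mem (w.valuation K) θ k (-b) hb0 (by rw [neg_neg, hb]) (by
      intro c hc
      refine ⟨log (D.q.valuation F c), ?_⟩
      rw [hval]
      have h1 : D.q.valuation F c ≠ 0 := (Valuation.ne_zero_iff _).2 hc
      conv_lhs => rw [← exp_log h1]
      rw [← exp_nsmul, exp_inj, nsmul_eq_mul]
      have h2 : (E : ℤ) = -b * k := by linarith
      rw [h2]
      ring) hrep ℓ hℓ.ne_zero (by
      have h1 : ((ℓ : ℕ) : K) = algebraMap F K (algebraMap (𝓞 F) F (ℓ : 𝓞 F)) := by simp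
      rw [h1, hval, hv1, one_pow]
      intro h
      refine D.hq ?_
      obtain ⟨t, ht⟩ := hℓmk
      rw [ht, Nat.cast_mul]
      exact Ideal.mul_mem_right _ _ h) (y : K) x hxy hwx
    have hcx : c ^ ℓ = x := by
      apply (algebraMap F K).injective
      rw [map_pow, ← hc, hxy]
    have hc0 : c ≠ 0 := by
      rintro rfl
      rw [map_zero] at hc
      exact y.ne_zero hc
    exact D.ind ℓ hℓ hℓmk e (Units.mk0 c hc0) (by rw [Units.val_mk0, hcx])

end Pool.Agent.U907.MR
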