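import Pool.Agent.U907.MR.Leg
import Pool.Agent.U907.MR.Step
import Pool.Agent.W64.CG.Val

/-!
# Imaginary quadratic fields with large `4`-rank
-/

set_option autoImplicit false

namespace Pool.Agent.U907.MR

open NumberField IsDedekindDomain nonZeroDivisors WithZero

/-- primes `1` modulo `4` which are squares modulo each other -/
theorem exists_primes (N : ℕ) : ∃ p : Fin N → ℕ, (∀ i, (p i).Prime ∧ p i % 4 = 1) ∧
    Function.Injective p ∧ ∀ i j, i ≠ j → ∃ s : ℤ, (p j : ℤ) ∣ s ^ 2 - p i := by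
  induction N with
  | zero => exact ⟨fun i => i.elim0, fun i => i.elim0, fun i => i.elim0, fun i => i.elim0⟩
  | succ N ih =>
    obtain ⟨p, h1, h2, h3⟩ := ih
    set Q : ℕ := 4 * ∏ i, p i with hQ
    have hQ0 : 0 < Q := Nat.mul_pos (by norm_num) (Finset.prod_pos fun i _ => (h1 i).1.pos)
    have : NeZero Q := ⟨hQ0.ne'⟩
    obtain ⟨q, hqQ, hq, hq1⟩ := Nat.forall_exists_prime_gt_and_eq_mod (q := Q) (a := 1)
      isUnit_one Q
    have hle : ∀ i, p i ≤ Q := fun i => Nat.le_of_dvd hQ0
      ((Finset.dvd_prod_of_mem p (Finset.mem_univ i)).mul_left 4)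
    have hqd : (Q : ℤ) ∣ (q : ℤ) - 1 :=
      (ZMod.intCast_eq_intCast_iff_dvd_sub 1 q Q).1 (by push_cast; exact hq1.symm)
    have hq4 : q % 4 = 1 := by
      have h4 : (4 : ℤ) ∣ (Q : ℤ) := by
        rw [hQ]
        push_cast
        exact Dvd.intro _ rfl
      have h5 := h4.trans hqd
      omega
    have hpq : ∀ i, (p i : ℤ) ∣ (q : ℤ) - 1 := by
      intro i
      have h4 : (p i) ∣ Q := (Finset.dvd_prod_of_mem p (Finset.mem_univ i)).mul_left 4
      have h5 : (p i : ℤ) ∣ (Q : ℤ) := by exact_mod_cast h4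
      exact h5.trans hqd
    refine ⟨Fin.cons q p, ?_, ?_, ?_⟩
    · intro i
      refine Fin.cases ?_ (fun j => ?_) i
      · exact ⟨hq, hq4⟩
      · exact h1 j
    · rw [Fin.cons_injective_iff]
      refine ⟨?_, h2⟩
      rintro ⟨i, hi⟩
      have := hle i
      omega
    · intro i j
      refine Fin.cases ?_ (fun i' => ?_) i <;> refine Fin.cases ?_ (fun j' => ?_) j
      · intro h
        exact absurd rfl h
      · intro _
        refine ⟨1, ?_⟩
        simp only [Fin.cons_zero, Fin.cons_succ]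
        have := hpq j'
        rw [one_pow, dvd_sub_comm]
        exact this
      · intro _
        simp only [Fin.cons_zero, Fin.cons_succ]
        have : Fact q.Prime := ⟨hq⟩
        have : Fact (p i').Prime := ⟨(h1 i').1⟩
        have h5 := (ZMod.exists_sq_eq_prime_iff_of_mod_four_eq_one (p := q) (q := p i') hq4 (by
          have := (h1 i').2
          intro h
          rw [h] at this
          omega)).2 (by
            have h6 : ((q : ℕ) : ZMod (p i')) = 1 := by
              have h7 := (ZMod.intCast_eq_intCast_iff_dvd_sub 1 q (p i')).2 (hpq i')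
              push_cast at h7
              exact h7.symm
            rw [h6]
            exact ⟨1, by ring⟩)
        obtain ⟨x, hx⟩ := h5
        refine ⟨(x.val : ℤ), ?_⟩
        rw [← ZMod.intCast_eq_intCast_iff_dvd_sub]
        push_cast
        rw [ZMod.natCast_zmod_val, hx, sq]
      · intro h
        exact h3 i' j' fun h' => h (by rw [h'])

/-- the field `ℚ(√(-D))` -/
theorem exists_quad (D : ℕ) (hD : 0 < D) : ∃ (K : Type) (_ : Field K) (_ : NumberField K) (θ : K),
    Module.finrank ℚ K = 2 ∧ θ ^ 2 = -(D : K) ∧ ∀ y : K, ∃ a b : ℚ, y = a + b * θ := by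
  have hdeg : (Polynomial.X ^ 2 + Polynomial.C (D : ℚ)).natDegree = 2 :=
    Polynomial.natDegree_X_pow_add_C
  have hirr : Irreducible (Polynomial.X ^ 2 + Polynomial.C (D : ℚ)) := by
    refine Polynomial.irreducible_of_degree_le_three_of_not_isRoot (by rw [hdeg]; decide) ?_
    intro x hx
    rw [Polynomial.IsRoot.def, Polynomial.eval_add, Polynomial.eval_pow, Polynomial.eval_X,
      Polynomial.eval_C] at hx
    have h1 : (0 : ℚ) < D := by exact_mod_cast hD
    nlinarith [sq_nonneg x]
  set f : Polynomial ℚ := Polynomial.X ^ 2 + Polynomial.C (D : ℚ) with hf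
  have : Fact (Irreducible f) := ⟨hirr⟩
  let pb := AdjoinRoot.powerBasis hirr.ne_zero
  have hdim : pb.dim = 2 := by rw [AdjoinRoot.powerBasis_dim, hdeg]
  have : FiniteDimensional ℚ (AdjoinRoot f) := pb.finite
  have hN : NumberField (AdjoinRoot f) := NumberField.of_module_finite ℚ (AdjoinRoot f)
  refine ⟨AdjoinRoot f, inferInstance, hN, AdjoinRoot.root f, ?_, ?_, ?_⟩
  · rw [pb.finrank, hdim]
  · have h3 := AdjoinRoot.eval₂_root f
    rw [hf, Polynomial.eval₂_add, Polynomial.eval₂_X_pow, Polynomial.eval₂_C] at h3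
    rw [eq_neg_iff_add_eq_zero]
    rw [← h3]
    congr 1
  · intro y
    set B := pb.basis.reindex (finCongr hdim) with hB
    refine ⟨B.repr y 0, B.repr y 1, ?_⟩
    conv_lhs => rw [← B.sum_repr y]
    rw [Fin.sum_univ_two, Algebra.smul_def, Algebra.smul_def, hB, Module.Basis.reindex_apply,
      Module.Basis.reindex_apply, pb.basis_eq_pow, pb.basis_eq_pow]
    simp
    exact Or.inl rfl

/-- the valuations of `α² / p`, `α = p X + Y θ`, are divisible by `4` -/
theorem val4 {K : Type} [Field K] [NumberField K] (v : HeightOneSpectrum (𝓞 K)) {D p E : ℕ} {θ : K}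
    (hθ : θ ^ 2 = -(D : K)) (hD : D = p * E) (hp : p.Prime) (hpE : Nat.Coprime p E)
    (hE : Squarefree E) (hp4 : p % 4 = 1) (hE4 : E % 4 = 1) {X Y Z : ℤ} (hY : Y ≠ 0)
    (h : Z ^ 2 - p * X ^ 2 = E * Y ^ 2) {u t w : ℤ} (hb : u * X + t * Y + w * Z = 1) :
    ∃ z : ℤ, v.valuation K ((p * X + Y * θ) ^ 2 / p) = exp (((4 : ℕ) : ℤ) * z) := by
  set V := v.valuation K with hV
  have hint : ∀ n : ℤ, V (n : K) ≤ 1 := by
    intro n
    have := v.valuation_le_one (K := K) (n : 𝓞 K)
    simpa using this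
  have hmem : ∀ n : ℤ, V (n : K) < 1 ↔ (n : 𝓞 K) ∈ v.asIdeal := by
    intro n
    have := v.valuation_lt_one_iff_mem (K := K) (n : 𝓞 K)
    simpa using this
  have hone : ∀ n : ℤ, ¬ V (n : K) < 1 → V (n : K) = 1 := fun n hn =>
    le_antisymm (hint n) (not_lt.1 hn)
  -- coprime integers are not both in `v`
  have hcop : ∀ a b c d : ℤ, c * a + d * b = 1 → V (a : K) < 1 → V (b : K) < 1 → False := by
    intro a b c d h1 h2 h3
    have h4 := (hmem a).1 h2
    have h5 := (hmem b).1 h3
    have h6 : (1 : 𝓞 K) ∈ v.asIdeal := by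
      have h7 : ((c * a + d * b : ℤ) : 𝓞 K) ∈ v.asIdeal := by
        push_cast
        exact add_mem (Ideal.mul_mem_left _ _ h4) (Ideal.mul_mem_left _ _ h5)
      rw [h1] at h7
      simpa using h7
    exact v.isPrime.ne_top ((Ideal.eq_top_iff_one _).2 h6)
  have hcop3 : V (X : K) < 1 → V (Y : K) < 1 → V (Z : K) < 1 → False := by
    intro h2 h3 h4
    have h2' := (hmem X).1 h2
    have h3' := (hmem Y).1 h3
    have h4' := (hmem Z).1 h4
    have h6 : (1 : 𝓞 K) ∈ v.asIdeal := by
      have h7 : ((u * X + t * Y + w * Z : ℤ) : 𝓞 K) ∈ v.asIdeal := by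
        push_cast
        exact add_mem (add_mem (Ideal.mul_mem_left _ _ h2') (Ideal.mul_mem_left _ _ h3'))
          (Ideal.mul_mem_left _ _ h4')
      rw [hb] at h7
      simpa using h7
    exact v.isPrime.ne_top ((Ideal.eq_top_iff_one _).2 h6)
  have hcopn : ∀ (r : ℕ) (a : ℤ), r.Prime → V (r : K) < 1 → V (a : K) < 1 → (r : ℤ) ∣ a := by
    intro r a hr h1 h2
    by_contra h3
    have h4 : IsCoprime (r : ℤ) a := (Nat.prime_iff_prime_int.1 hr).coprime_iff_not_dvd.2 h3
    obtain ⟨c, d, hcd⟩ := h4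
    exact hcop (r : ℤ) a c d hcd (by exact_mod_cast h1) h2
  have hpp : Prime (p : ℤ) := Nat.prime_iff_prime_int.1 hp
  have hp0 : (p : K) ≠ 0 := by exact_mod_cast hp.ne_zero
  have hθD : V θ ^ 2 = V (p : K) * V (E : K) := by
    rw [← map_pow, hθ, Valuation.map_neg, hD]
    push_cast
    rw [map_mul]
  have hE0 : (0 : ℤ) < E := by exact_mod_cast (show 0 < E by omega)
  have hpz : (0 : ℤ) < p := by exact_mod_cast hp.pos
  have hZ0 : Z ≠ 0 := by
    rintro rfl
    have h1 : 0 < (E : ℤ) * Y ^ 2 := by positivity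
    have h2 : 0 ≤ (p : ℤ) * X ^ 2 := by positivity
    linarith
  have hθint : V θ ≤ 1 := by
    have h1 : V θ ^ 2 ≤ 1 := by
      rw [hθD]
      have h2 := hint (p : ℤ)
      have h3 := hint (E : ℤ)
      push_cast at h2 h3
      exact mul_le_one' h2 h3
    exact (pow_le_one_iff_of_nonneg zero_le two_ne_zero).1 h1
  by_cases hpv : V (p : K) < 1
  · -- above `p`
    have hEv : V (E : K) = 1 := by
      have h1 := hone (E : ℤ)
      push_cast at h1
      refine h1 fun h2 => ?_
      obtain ⟨c, d, hcd⟩ := Nat.isCoprime_iff_coprime.2 hpE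
      exact hcop (p : ℤ) (E : ℤ) c d hcd (by exact_mod_cast hpv) (by exact_mod_cast h2)
    have hYv : V (Y : K) = 1 := by
      refine hone Y fun h2 => ?_
      obtain ⟨Y₁, hY₁⟩ := hcopn p Y hp hpv h2
      have h3 : (p : ℤ) ∣ Z := by
        refine hpp.dvd_of_dvd_pow (n := 2) ⟨X ^ 2 + E * Y₁ * Y, ?_⟩
        rw [hY₁] at h ⊢
        linear_combination h
      obtain ⟨Z₁, hZ₁⟩ := h3
      have h4 : (p : ℤ) ∣ X := by
        refine hpp.dvd_of_dvd_pow (n := 2) ⟨Z₁ ^ 2 - E * Y₁ ^ 2, ?_⟩
        apply mul_left_cancel₀ hpz.ne'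
        rw [hY₁, hZ₁] at h
        linear_combination -h
      obtain ⟨X₁, hX₁⟩ := h4
      have h5 : (p : ℤ) ∣ 1 := ⟨u * X₁ + t * Y₁ + w * Z₁, by
        rw [← hb, hX₁, hY₁, hZ₁]
        ring⟩
      exact hpp.not_isUnit (isUnit_of_dvd_one h5)
    have hθp : V θ ^ 2 = V (p : K) := by rw [hθD, hEv, mul_one]
    have hVp0 : V (p : K) ≠ 0 := (Valuation.ne_zero_iff _).2 hp0
    have hVθ0 : V θ ≠ 0 := by
      intro h0
      rw [h0, zero_pow two_ne_zero] at hθp
      exact hVp0 hθp.symm
    have hVθ1 : V θ < 1 := by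
      refine lt_of_le_of_ne hθint fun h1 => ?_
      rw [h1, one_pow] at hθp
      rw [← hθp] at hpv
      exact lt_irrefl _ hpv
    have hlt : V ((p : K) * X) < V ((Y : K) * θ) := by
      rw [map_mul, map_mul, hYv, one_mul, ← hθp, sq]
      calc V θ * V θ * V (X : K) ≤ V θ * V θ * 1 := mul_le_mul_right (hint X) _
        _ = V θ * V θ := mul_one _
        _ < V θ * 1 := mul_lt_mul_of_pos_left hVθ1 (zero_lt_iff.2 hVθ0)
        _ = V θ := mul_one _
    refine ⟨0, ?_⟩
    rw [mul_zero, exp_zero, map_div₀, map_pow, Valuation.map_add_eq_of_lt_right _ hlt, map_mul, hYv,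
      one_mul, hθp]
    exact div_self hVp0
  · have hpv1 : V (p : K) = 1 := by
      have h1 := hone (p : ℤ)
      push_cast at h1
      exact h1 hpv
    have hαα : ((p : K) * X + Y * θ) * (p * X - Y * θ) = p * Z ^ 2 := by
      have h1 : (Z : K) ^ 2 - p * X ^ 2 = E * Y ^ 2 := by exact_mod_cast h
      have h2 : (D : K) = p * E := by rw [hD]; push_cast; ring
      linear_combination -(Y : K) ^ 2 * hθ + (Y : K) ^ 2 * h2 - p * h1
    have hle1 : V ((p : K) * X + Y * θ) ≤ 1 := by
      refine (Valuation.map_add _ _ _).trans (max_le ?_ ?_)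
      · rw [map_mul, hpv1, one_mul]
        exact hint X
      · rw [map_mul]
        exact mul_le_one' (hint Y) hθint
    have hle2 : V ((p : K) * X - Y * θ) ≤ 1 := by
      refine (Valuation.map_sub _ _ _).trans (max_le ?_ ?_)
      · rw [map_mul, hpv1, one_mul]
        exact hint X
      · rw [map_mul]
        exact mul_le_one' (hint Y) hθint
    have hprod : V ((p : K) * X + Y * θ) * V ((p : K) * X - Y * θ) = V (Z : K) ^ 2 := by
      rw [← map_mul, hαα, map_mul, hpv1, one_mul, map_pow]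
    by_cases h1 : V ((p : K) * X + Y * θ) < 1
    · by_cases h2 : V ((p : K) * X - Y * θ) < 1
      · exfalso
        have hZv : V (Z : K) < 1 := by
          by_contra hcon
          have h3 := hone Z hcon
          rw [h3, one_pow] at hprod
          have h4 : V ((p : K) * X + Y * θ) * V ((p : K) * X - Y * θ) < 1 :=
            mul_lt_one_of_nonneg_of_lt_one_left zero_le h1 hle2
          rw [hprod] at h4
          exact lt_irrefl _ h4
        have h2X : V (2 : K) * V (X : K) < 1 := by
          have h3 : (2 : K) * X * p = (p * X + Y * θ) + (p * X - Y * θ) := by ring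
          have h4 := Valuation.map_add_lt V h1 h2
          rw [← h3, map_mul, hpv1, mul_one, map_mul] at h4
          exact h4
        have h2Y : V (2 : K) * (V (Y : K) * V θ) < 1 := by
          have h3 : (2 : K) * (Y * θ) = (p * X + Y * θ) - (p * X - Y * θ) := by ring
          have h4 := Valuation.map_sub_lt V h1 h2
          rw [← h3, map_mul, map_mul] at h4
          exact h4
        have h2v : V (2 : K) = 1 := by
          have h3 := hone 2
          push_cast at h3
          refine h3 fun h4 => ?_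
          have h5 : (2 : ℤ) ∣ Z := hcopn 2 Z Nat.prime_two (by exact_mod_cast h4) hZv
          obtain ⟨Z₁, hZ₁⟩ := h5
          obtain ⟨p', hp'⟩ : ∃ p' : ℤ, (p : ℤ) = 4 * p' + 1 := ⟨(p : ℤ) / 4, by omega⟩
          obtain ⟨E', hE'⟩ : ∃ E' : ℤ, (E : ℤ) = 4 * E' + 1 := ⟨(E : ℤ) / 4, by omega⟩
          rw [hZ₁, hp', hE'] at h
          have h6 : X % 2 = 0 ∧ Y % 2 = 0 := by
            have h7 : (X ^ 2 + Y ^ 2) % 4 = 0 := by
              have h8 : X ^ 2 + Y ^ 2 = 4 * (Z₁ ^ 2 - p' * X ^ 2 - E' * Y ^ 2) := by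
                linear_combination -h
              omega
            rcases Int.emod_two_eq_zero_or_one X with hx | hx <;>
              rcases Int.emod_two_eq_zero_or_one Y with hy | hy
            · exact ⟨hx, hy⟩
            · exfalso
              obtain ⟨a, ha⟩ : ∃ a, X = 2 * a := ⟨X / 2, by omega⟩
              obtain ⟨b, hb'⟩ : ∃ b, Y = 2 * b + 1 := ⟨Y / 2, by omega⟩
              have h8 : X ^ 2 + Y ^ 2 = 4 * (a ^ 2 + b ^ 2 + b) + 1 := by rw [ha, hb']; ring
              omega
            · exfalso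
              obtain ⟨a, ha⟩ : ∃ a, X = 2 * a + 1 := ⟨X / 2, by omega⟩
              obtain ⟨b, hb'⟩ : ∃ b, Y = 2 * b := ⟨Y / 2, by omega⟩
              have h8 : X ^ 2 + Y ^ 2 = 4 * (a ^ 2 + b ^ 2 + a) + 1 := by rw [ha, hb']; ring
              omega
            · exfalso
              obtain ⟨a, ha⟩ : ∃ a, X = 2 * a + 1 := ⟨X / 2, by omega⟩
              obtain ⟨b, hb'⟩ : ∃ b, Y = 2 * b + 1 := ⟨Y / 2, by omega⟩
              have h8 : X ^ 2 + Y ^ 2 = 4 * (a ^ 2 + b ^ 2 + a + b) + 2 := by rw [ha, hb']; ring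
              omega
          have h9 : (2 : ℤ) ∣ u * X + t * Y + w * Z := by
            refine dvd_add (dvd_add ?_ ?_) ?_
            · exact Dvd.dvd.mul_left (Int.dvd_of_emod_eq_zero h6.1) _
            · exact Dvd.dvd.mul_left (Int.dvd_of_emod_eq_zero h6.2) _
            · exact Dvd.dvd.mul_left ⟨Z₁, hZ₁⟩ _
          rw [hb] at h9
          omega
        rw [h2v, one_mul] at h2X h2Y
        have hYv : V (Y : K) = 1 := hone Y fun h3 => hcop3 h2X h3 hZv
        rw [hYv, one_mul] at h2Y
        -- `E` lies in `v`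
        have hEv : V (E : K) < 1 := by
          have h3 : V (E : K) = V θ * V θ := by rw [← sq, hθD, hpv1, one_mul]
          rw [h3]
          exact mul_lt_one_of_nonneg_of_lt_one_left zero_le h2Y hθint
        have hEm : ((E : ℕ) : 𝓞 K) ∈ v.asIdeal := by
          have := (hmem (E : ℤ)).1 (by exact_mod_cast hEv)
          exact_mod_cast this
        obtain ⟨r, hr, hrE, hrv⟩ : ∃ r : ℕ, r.Prime ∧ r ∣ E ∧ ((r : ℕ) : 𝓞 K) ∈ v.asIdeal := by
          have hE1 : E ≠ 0 := by omega
          have h3 : ((E.primeFactorsList.map (fun r : ℕ => (r : 𝓞 K))).prod) ∈ v.asIdeal := by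
            have h4 : (E.primeFactorsList.map (fun r : ℕ => (r : 𝓞 K))).prod = (E : 𝓞 K) := by
              conv_rhs => rw [← Nat.prod_primeFactorsList hE1]
              rw [Nat.cast_list_prod]
            rw [h4]
            exact hEm
          obtain ⟨x, hx, hxv⟩ := (Ideal.IsPrime.multiset_prod_mem_iff_exists_mem v.isPrime
            (↑(E.primeFactorsList.map (fun r : ℕ => (r : 𝓞 K))))).1 (by simpa using h3)
          rw [Multiset.mem_coe, List.mem_map] at hx
          obtain ⟨r, hr, rfl⟩ := hx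
          exact ⟨r, Nat.prime_of_mem_primeFactorsList hr, Nat.dvd_of_mem_primeFactorsList hr, hxv⟩
        have hrv' : V (r : K) < 1 := by
          have := (hmem (r : ℤ)).2 (by exact_mod_cast hrv)
          exact_mod_cast this
        obtain ⟨X₁, hX₁⟩ := hcopn r X hr hrv' h2X
        obtain ⟨Z₁, hZ₁⟩ := hcopn r Z hr hrv' hZv
        obtain ⟨E₁, hE₁⟩ := hrE
        have hrr : Prime (r : ℤ) := Nat.prime_iff_prime_int.1 hr
        have hr0 : (r : ℤ) ≠ 0 := hrr.ne_zero
        have h5 : (r : ℤ) ∣ (E₁ : ℤ) * Y ^ 2 := by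
          refine ⟨Z₁ ^ 2 - p * X₁ ^ 2, ?_⟩
          apply mul_left_cancel₀ hr0
          rw [hX₁, hZ₁, hE₁] at h
          push_cast at h
          linear_combination -h
        rcases hrr.dvd_or_dvd h5 with h6 | h6
        · have h7 : r ∣ E₁ := by exact_mod_cast h6
          have h8 : r * r ∣ E := by
            rw [hE₁]
            exact mul_dvd_mul_left r h7
          exact hr.not_isUnit (hE r h8)
        · have h7 := hrr.dvd_of_dvd_pow h6
          obtain ⟨Y₁, hY₁⟩ := h7
          have h8 : (r : ℤ) ∣ 1 := ⟨u * X₁ + t * Y₁ + w * Z₁, by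
            rw [← hb, hX₁, hY₁, hZ₁]
            ring⟩
          exact hrr.not_isUnit (isUnit_of_dvd_one h8)
      · have h3 : V ((p : K) * X - Y * θ) = 1 := le_antisymm hle2 (not_lt.1 h2)
        rw [h3, mul_one] at hprod
        have hZv0 : V (Z : K) ≠ 0 := (Valuation.ne_zero_iff _).2 (by exact_mod_cast hZ0)
        refine ⟨log (V (Z : K)), ?_⟩
        rw [map_div₀, map_pow, hprod, hpv1, div_one, ← pow_mul]
        conv_lhs => rw [← exp_log hZv0]
        rw [← exp_nsmul, exp_inj, nsmul_eq_mul]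
    · have h3 : V ((p : K) * X + Y * θ) = 1 := le_antisymm hle1 (not_lt.1 h1)
      refine ⟨0, ?_⟩
      rw [mul_zero, exp_zero, map_div₀, map_pow, h3, hpv1, one_pow, div_one]

end Pool.Agent.U907.MR
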